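import Pool.Agent.H.MP_4bcbbd_co.h39h.Simple

/-!
MP_4bcbbd_co, theorem H: the normalised face numbers and the proportions.
-/

set_option autoImplicit false

namespace Pool.Agent.H.MP_4bcbbd_co.K

open scoped BigOperators

/-- the correction factor `(n)_m / (n^c ∏_{l<k} (d - 2l))`, `n = d + c`, `m = c + k`. -/
noncomputable def Ek (c d k : ℕ) : ℝ :=
  ((d + c).descFactorial (c + k) : ℝ) / (((d + c : ℕ) : ℝ) ^ c * Pd d k)

/-- the number `λ ^ c = m (m-1) ... (m-c+1) / n^(c/2)`, `n = d + c`, `m = c + k`. -/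
noncomputable def Lk (c d k : ℕ) : ℝ :=
  ((c + k).descFactorial c : ℝ) / ((d + c : ℕ) : ℝ) ^ ((c : ℝ) / 2)

theorem Lk_pos {c d : ℕ} (hd : 0 < d) (k : ℕ) : 0 < Lk c d k := by
  unfold Lk
  have h1 : 0 < (c + k).descFactorial c := Nat.descFactorial_pos.mpr (Nat.le_add_right c k)
  have h2 : (0 : ℝ) < ((d + c : ℕ) : ℝ) := by exact_mod_cast Nat.add_pos_left hd c
  have h3 : (0 : ℝ) < ((d + c : ℕ) : ℝ) ^ ((c : ℝ) / 2) := Real.rpow_pos_of_pos h2 _
  exact div_pos (by exact_mod_cast h1) h3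

theorem asym_cast_desc {n k : ℕ} (h : k ≤ n) :
    ((n.descFactorial k : ℕ) : ℝ) = ∏ l ∈ Finset.range k, ((n : ℝ) - l) := by
  rw [Nat.descFactorial_eq_prod_range, Nat.cast_prod]
  refine Finset.prod_congr rfl fun l hl => ?_
  rw [Nat.cast_sub (le_trans (Finset.mem_range.mp hl).le h)]

theorem asym_desc_split (c d k : ℕ) :
    (d + c).descFactorial (c + k) = (d + c).descFactorial c * d.descFactorial k := by
  have h := Nat.descFactorial_mul_descFactorial (n := d + c) (k := c) (m := c + k)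
    (Nat.le_add_right c k)
  rw [← h]
  have h1 : d + c - c = d := by omega
  have h2 : c + k - c = k := by omega
  rw [h1, h2, mul_comm]

theorem asym_Ek_split {c d k : ℕ} :
    Ek c d k = (((d + c).descFactorial c : ℕ) : ℝ) / ((d + c : ℕ) : ℝ) ^ c *
      (((d.descFactorial k : ℕ) : ℝ) / Pd d k) := by
  unfold Ek
  rw [asym_desc_split, Nat.cast_mul]
  rw [div_mul_div_comm]

/-- the first factor. -/
theorem asym_first {n : ℕ} (hn : 0 < n) (s : ℕ) (hs : s ≤ n) :
    1 - (s : ℝ) ^ 2 / n ≤ ((n.descFactorial s : ℕ) : ℝ) / (n : ℝ) ^ s := by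
  have hn' : (0 : ℝ) < n := by exact_mod_cast hn
  induction s with
  | zero => simp
  | succ s ih =>
    have ih' := ih (by omega)
    have h1 : ((n.descFactorial (s + 1) : ℕ) : ℝ) / (n : ℝ) ^ (s + 1) =
        (((n.descFactorial s : ℕ) : ℝ) / (n : ℝ) ^ s) * (1 - (s : ℝ) / n) := by
      rw [Nat.descFactorial_succ, Nat.cast_mul, Nat.cast_sub (by omega), pow_succ]
      field_simp
    have h2 : ((n.descFactorial s : ℕ) : ℝ) / (n : ℝ) ^ s ≤ 1 := by
      rw [div_le_one (by positivity)]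
      exact_mod_cast Nat.descFactorial_le_pow n s
    rw [h1]
    have h3 : 0 ≤ (s : ℝ) / n := by positivity
    have h4 : ((n.descFactorial s : ℕ) : ℝ) / (n : ℝ) ^ s * (s / n) ≤ 1 * (s / n) :=
      mul_le_mul_of_nonneg_right h2 h3
    have h5 : (((s + 1 : ℕ) : ℝ)) ^ 2 / n = (s : ℝ) ^ 2 / n + s / n + (s + 1) / n := by
      push_cast
      rw [← add_div, ← add_div]
      congr 1
      ring
    have h6 : 0 ≤ ((s : ℝ) + 1) / n := by positivity
    rw [h5]
    nlinarith [ih', h4, h6]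

/-- PROOF: `(n)_m = ∏_{j<c} (n - j) ∏_{l<k} (d - l)` (`n - c = d`); `∏_{j<c} (1 - j/n) ≥ 1 - c²/n`, `d - l ≥ d - 2 l`. -/
theorem Ek_ge {c d k : ℕ} (hd : 0 < d) (h : 2 * k ≤ d + 1) :
    1 - (c : ℝ) ^ 2 / d ≤ Ek c d k := by
  have hkd : k ≤ d := by omega
  have hd' : (0 : ℝ) < d := by exact_mod_cast hd
  have hP : 0 < Pd d k := Pd_pos h
  have h1 := asym_first (n := d + c) (by omega) c (by omega)
  have h2 : 1 ≤ ((d.descFactorial k : ℕ) : ℝ) / Pd d k := by
    rw [le_div_iff₀ hP, one_mul, asym_cast_desc hkd]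
    unfold Pd
    refine Finset.prod_le_prod (fun l hl => ?_) (fun l hl => ?_)
    · have h3 : 2 * l ≤ d := by
        have := Finset.mem_range.mp hl
        omega
      have h4 : (2 : ℝ) * l ≤ d := by exact_mod_cast h3
      linarith
    · have h5 : (0 : ℝ) ≤ l := Nat.cast_nonneg l
      linarith
  have h6 : (c : ℝ) ^ 2 / ((d + c : ℕ) : ℝ) ≤ (c : ℝ) ^ 2 / d := by
    refine div_le_div_of_nonneg_left (by positivity) hd' ?_
    push_cast
    have : (0 : ℝ) ≤ c := Nat.cast_nonneg c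
    linarith
  have h7 : (0 : ℝ) ≤ (((d + c).descFactorial c : ℕ) : ℝ) / ((d + c : ℕ) : ℝ) ^ c := by
    positivity
  rw [asym_Ek_split]
  calc 1 - (c : ℝ) ^ 2 / d ≤ 1 - (c : ℝ) ^ 2 / ((d + c : ℕ) : ℝ) := by linarith
    _ ≤ (((d + c).descFactorial c : ℕ) : ℝ) / ((d + c : ℕ) : ℝ) ^ c := h1
    _ = (((d + c).descFactorial c : ℕ) : ℝ) / ((d + c : ℕ) : ℝ) ^ c * 1 := (mul_one _).symm
    _ ≤ _ := mul_le_mul_of_nonneg_left h2 h7

/-- PROOF: `(d - l) / (d - 2l) = 1 + l / (d - 2l) ≤ exp (l / (d - 2k))`. -/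
theorem Ek_le {c d k : ℕ} (h : 2 * k < d) :
    Ek c d k ≤ Real.exp ((k : ℝ) ^ 2 / (2 * ((d : ℝ) - 2 * k))) := by
  have hkd : k ≤ d := by omega
  have hP : 0 < Pd d k := Pd_pos (by omega)
  have hgap : (0 : ℝ) < (d : ℝ) - 2 * k := by
    have : (2 : ℝ) * k < d := by exact_mod_cast h
    linarith
  have h1 : (((d + c).descFactorial c : ℕ) : ℝ) / ((d + c : ℕ) : ℝ) ^ c ≤ 1 := by
    have hn : (0 : ℝ) < ((d + c : ℕ) : ℝ) := by
      have : 0 < d + c := by omega
      exact_mod_cast this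
    rw [div_le_one (by positivity)]
    exact_mod_cast Nat.descFactorial_le_pow (d + c) c
  have h2 : ((d.descFactorial k : ℕ) : ℝ) / Pd d k ≤
      Real.exp ((k : ℝ) ^ 2 / (2 * ((d : ℝ) - 2 * k))) := by
    rw [asym_cast_desc hkd]
    unfold Pd
    rw [← Finset.prod_div_distrib]
    calc ∏ l ∈ Finset.range k, ((d : ℝ) - l) / ((d : ℝ) - 2 * l)
        ≤ ∏ l ∈ Finset.range k, Real.exp ((l : ℝ) / ((d : ℝ) - 2 * k)) := by
          refine Finset.prod_le_prod (fun l hl => ?_) (fun l hl => ?_)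
          · have h3 : l < k := Finset.mem_range.mp hl
            have h4 : (l : ℝ) < k := by exact_mod_cast h3
            have h5 : (0 : ℝ) ≤ l := Nat.cast_nonneg l
            exact div_nonneg (by linarith) (by linarith)
          · have h3 : l < k := Finset.mem_range.mp hl
            have h4 : (l : ℝ) < k := by exact_mod_cast h3
            have h5 : (0 : ℝ) ≤ l := Nat.cast_nonneg l
            have h6 : (0 : ℝ) < (d : ℝ) - 2 * l := by linarith
            have h7 : ((d : ℝ) - l) / ((d : ℝ) - 2 * l) = l / ((d : ℝ) - 2 * l) + 1 := by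
              rw [eq_comm, ← sub_eq_zero, div_add_one h6.ne', ← sub_div]
              have : (l : ℝ) + ((d : ℝ) - 2 * l) - ((d : ℝ) - l) = 0 := by ring
              rw [this, zero_div]
            have h8 : (l : ℝ) / ((d : ℝ) - 2 * l) ≤ l / ((d : ℝ) - 2 * k) :=
              div_le_div_of_nonneg_left h5 hgap (by linarith)
            rw [h7]
            calc (l : ℝ) / ((d : ℝ) - 2 * l) + 1 ≤ l / ((d : ℝ) - 2 * k) + 1 := by linarith
              _ ≤ Real.exp (l / ((d : ℝ) - 2 * k)) := Real.add_one_le_exp _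
      _ = Real.exp (∑ l ∈ Finset.range k, (l : ℝ) / ((d : ℝ) - 2 * k)) := by
          rw [Real.exp_sum]
      _ ≤ Real.exp ((k : ℝ) ^ 2 / (2 * ((d : ℝ) - 2 * k))) := by
          apply Real.exp_le_exp.mpr
          rw [← Finset.sum_div]
          have h9 : (∑ l ∈ Finset.range k, (l : ℝ)) ≤ (k : ℝ) ^ 2 / 2 := by
            clear h hkd hP hgap h1
            induction k with
            | zero => simp
            | succ k ih =>
              rw [Finset.sum_range_succ]
              push_cast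
              nlinarith [ih]
          calc (∑ l ∈ Finset.range k, (l : ℝ)) / ((d : ℝ) - 2 * k)
              ≤ ((k : ℝ) ^ 2 / 2) / ((d : ℝ) - 2 * k) :=
                div_le_div_of_nonneg_right h9 hgap.le
            _ = (k : ℝ) ^ 2 / (2 * ((d : ℝ) - 2 * k)) := by rw [div_div]
  have h10 : (0 : ℝ) ≤ ((d.descFactorial k : ℕ) : ℝ) / Pd d k :=
    div_nonneg (Nat.cast_nonneg _) hP.le
  rw [asym_Ek_split]
  calc _ ≤ 1 * (((d.descFactorial k : ℕ) : ℝ) / Pd d k) := mul_le_mul_of_nonneg_right h1 h10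
    _ = ((d.descFactorial k : ℕ) : ℝ) / Pd d k := one_mul _
    _ ≤ _ := h2

theorem Ek_pos {c d k : ℕ} (h : 2 * k < d) : 0 < Ek c d k := by
  have hP : 0 < Pd d k := Pd_pos (by omega)
  have hn : (0 : ℝ) < ((d + c : ℕ) : ℝ) := by
    have : 0 < d + c := by omega
    exact_mod_cast this
  have h1 : 0 < (d + c).descFactorial (c + k) := Nat.descFactorial_pos.mpr (by omega)
  unfold Ek
  exact div_pos (by exact_mod_cast h1) (mul_pos (pow_pos hn c) hP)

/-- PROOF: `C(n, d - k) = C(n, m) = (n)_m / m!`, `m! = (m)_c k!`. -/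
theorem Fk_ratio {c d k : ℕ} (h : 2 * k < d) (V : Finset (E d)) :
    Fk V k = 2 ^ d * ((d + c : ℕ) : ℝ) ^ ((c : ℝ) / 2) * (Ek c d k *
      (((fc V (d - k)).card : ℝ) / (2 ^ (d - k) * ((d + c).choose (d - k) : ℝ)) / Lk c d k)) := by
  have hP : 0 < Pd d k := Pd_pos (by omega)
  have hn : (0 : ℝ) < ((d + c : ℕ) : ℝ) := by
    have : 0 < d + c := by omega
    exact_mod_cast this
  have hD : (0 : ℝ) < (((d + c).descFactorial (c + k) : ℕ) : ℝ) := by
    have : 0 < (d + c).descFactorial (c + k) := Nat.descFactorial_pos.mpr (by omega)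
    exact_mod_cast this
  have hC : (0 : ℝ) < (((c + k).descFactorial c : ℕ) : ℝ) := by
    have : 0 < (c + k).descFactorial c := Nat.descFactorial_pos.mpr (Nat.le_add_right c k)
    exact_mod_cast this
  have hB : (0 : ℝ) < ((d + c).choose (d - k) : ℝ) := by
    have : 0 < (d + c).choose (d - k) := Nat.choose_pos (by omega)
    exact_mod_cast this
  -- the binomial coefficient
  have hchoose : ((d + c).choose (d - k) : ℝ) * ((((c + k).descFactorial c : ℕ) : ℝ) *
      (k.factorial : ℝ)) = (((d + c).descFactorial (c + k) : ℕ) : ℝ) := by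
    have e1 : (d + c).choose (d - k) = (d + c).choose (c + k) := by
      rw [← Nat.choose_symm (show c + k ≤ d + c by omega)]
      congr 1
      omega
    have e2 : (c + k).descFactorial c * k.factorial = (c + k).factorial := by
      have := Nat.factorial_mul_descFactorial (show c ≤ c + k by omega)
      rw [show c + k - c = k by omega] at this
      rw [mul_comm]
      exact this
    have e3 : (d + c).choose (c + k) * (c + k).factorial = (d + c).descFactorial (c + k) := by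
      rw [Nat.descFactorial_eq_factorial_mul_choose, mul_comm]
    rw [e1, ← e3, ← e2]
    push_cast
    ring
  have hroot : ((d + c : ℕ) : ℝ) ^ ((c : ℝ) / 2) * ((d + c : ℕ) : ℝ) ^ ((c : ℝ) / 2) =
      ((d + c : ℕ) : ℝ) ^ c := by
    rw [← Real.rpow_add hn, add_halves, Real.rpow_natCast]
  have hr : (0 : ℝ) < ((d + c : ℕ) : ℝ) ^ ((c : ℝ) / 2) := Real.rpow_pos_of_pos hn _
  have h2 : (2 : ℝ) ^ d = 2 ^ (d - k) * 2 ^ k := by
    rw [← pow_add]
    congr 1
    omega
  unfold Fk Ek Lk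
  rw [← hchoose, h2, ← hroot]
  set x := ((d + c : ℕ) : ℝ) ^ ((c : ℝ) / 2)
  set y := (((c + k).descFactorial c : ℕ) : ℝ)
  set z := ((d + c).choose (d - k) : ℝ)
  have hf : (0 : ℝ) < (k.factorial : ℝ) := by exact_mod_cast Nat.factorial_pos k
  field_simp

/-- `∏_{j<c}`-bounds: `(k+1)^c ≤ (c+k)_c ≤ (c+k)^c`. -/
theorem Lk_bounds {c d : ℕ} (hd : 0 < d) (k : ℕ) :
    (((k : ℝ) + 1) / Real.sqrt ((d + c : ℕ) : ℝ)) ^ c ≤ Lk c d k ∧
      Lk c d k ≤ (((c : ℝ) + k) / Real.sqrt ((d + c : ℕ) : ℝ)) ^ c := by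
  have hn : (0 : ℝ) < ((d + c : ℕ) : ℝ) := by
    have : 0 < d + c := by omega
    exact_mod_cast this
  have hs : ((d + c : ℕ) : ℝ) ^ ((c : ℝ) / 2) = Real.sqrt ((d + c : ℕ) : ℝ) ^ c := by
    rw [Real.sqrt_eq_rpow, ← Real.rpow_natCast, ← Real.rpow_mul hn.le]
    congr 1
    ring
  have hsp : 0 < Real.sqrt ((d + c : ℕ) : ℝ) ^ c := pow_pos (Real.sqrt_pos.mpr hn) c
  have hlo : ((k : ℝ) + 1) ^ c ≤ (((c + k).descFactorial c : ℕ) : ℝ) := by
    have h1 := Nat.pow_sub_le_descFactorial (c + k) c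
    have h2 : c + k + 1 - c = k + 1 := by omega
    rw [h2] at h1
    exact_mod_cast h1
  have hhi : (((c + k).descFactorial c : ℕ) : ℝ) ≤ ((c : ℝ) + k) ^ c := by
    exact_mod_cast Nat.descFactorial_le_pow (c + k) c
  unfold Lk
  rw [hs, div_pow, div_pow]
  exact ⟨div_le_div_of_nonneg_right hlo hsp.le, div_le_div_of_nonneg_right hhi hsp.le⟩

end Pool.Agent.H.MP_4bcbbd_co.K
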