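import Pool.Agent.H.MP_4bcbbd_co.h39h.Asym

/-!
MP_4bcbbd_co, theorem H: the argument of the limit shape.
-/

set_option autoImplicit false

namespace Pool.Agent.H.MP_4bcbbd_co.K

open scoped BigOperators

/-- the position: `λ = (m (m-1) ... (m-c+1))^(1/c) / √n`, `n = d + c`, `m = n - (i + 1)`. -/
noncomputable def lam (c d i : ℕ) : ℝ :=
  (((d + c - (i + 1)).descFactorial c : ℝ)) ^ (1 / (c : ℝ)) / Real.sqrt ((d + c : ℕ) : ℝ)

theorem lam_pow {c d k : ℕ} (hc : 1 ≤ c) (hk : k < d) : lam c d (d - 1 - k) ^ c = Lk c d k := by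
  have hn : (0 : ℝ) < ((d + c : ℕ) : ℝ) := by
    have : 0 < d + c := by omega
    exact_mod_cast this
  have hc0 : c ≠ 0 := by omega
  have e1 : d + c - (d - 1 - k + 1) = c + k := by omega
  have hx : (0 : ℝ) ≤ (((c + k).descFactorial c : ℕ) : ℝ) := Nat.cast_nonneg _
  have h1 : ((((c + k).descFactorial c : ℕ) : ℝ) ^ (1 / (c : ℝ))) ^ c =
      (((c + k).descFactorial c : ℕ) : ℝ) := by
    rw [one_div]
    exact Real.rpow_inv_natCast_pow hx hc0
  have h2 : Real.sqrt ((d + c : ℕ) : ℝ) ^ c = ((d + c : ℕ) : ℝ) ^ ((c : ℝ) / 2) := by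
    rw [Real.sqrt_eq_rpow, ← Real.rpow_natCast, ← Real.rpow_mul hn.le]
    congr 1
    ring
  unfold lam Lk
  rw [e1, div_pow, h1, h2]

theorem lam_nonneg (c d i : ℕ) : 0 ≤ lam c d i := by
  unfold lam
  positivity

/-- PROOF: `(k+1) / √n ≤ λ ≤ (c+k) / √n` (`Lk_bounds`) and `(k+1) (1/√d - 1/√n) ≤ c / (2 √d)`. -/
theorem lam_near {c d k : ℕ} (hc : 1 ≤ c) (hk : k < d) :
    |lam c d (d - 1 - k) - ((k : ℝ) + 1) / Real.sqrt d| ≤ 2 * c / Real.sqrt d := by
  have hd : 0 < d := by omega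
  have hc0 : c ≠ 0 := by omega
  have hd' : (0 : ℝ) < d := by exact_mod_cast hd
  have hcr : (1 : ℝ) ≤ c := by exact_mod_cast hc
  have hkr : (k : ℝ) + 1 ≤ d := by exact_mod_cast hk
  have hk0 : (0 : ℝ) ≤ k := Nat.cast_nonneg k
  have hn : (0 : ℝ) < ((d + c : ℕ) : ℝ) := by
    have : 0 < d + c := by omega
    exact_mod_cast this
  obtain ⟨b1, b2⟩ := Lk_bounds (c := c) hd k
  rw [← lam_pow hc hk] at b1 b2
  set L := lam c d (d - 1 - k) with hL
  have hL0 : 0 ≤ L := lam_nonneg _ _ _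
  set N := Real.sqrt ((d + c : ℕ) : ℝ) with hN
  set D := Real.sqrt (d : ℝ) with hD
  have hNpos : 0 < N := Real.sqrt_pos.2 hn
  have hDpos : 0 < D := Real.sqrt_pos.2 hd'
  have hDN : D ≤ N := by
    refine Real.sqrt_le_sqrt ?_
    push_cast
    linarith
  have hDsq : D ^ 2 = d := Real.sq_sqrt hd'.le
  have hNsq : N ^ 2 = d + c := by
    rw [hN, Real.sq_sqrt hn.le]
    push_cast
    ring
  have l1 : ((k : ℝ) + 1) / N ≤ L := (pow_le_pow_iff_left₀ (by positivity) hL0 hc0).1 b1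
  have l2 : L ≤ ((c : ℝ) + k) / N := (pow_le_pow_iff_left₀ hL0 (by positivity) hc0).1 b2
  rw [abs_le]
  constructor
  · have h1 : ((k : ℝ) + 1) / D - ((k : ℝ) + 1) / N ≤ 2 * c / D := by
      rw [div_sub_div _ _ hDpos.ne' hNpos.ne', div_le_div_iff₀ (by positivity) hDpos]
      have h2 : (N - D) * (N + D) = c := by nlinarith
      have h3 : (N - D) * D ≤ c := by nlinarith
      have h4 : ((k : ℝ) + 1) * (N - D) * D ≤ d * c := by
        calc ((k : ℝ) + 1) * (N - D) * D = ((k : ℝ) + 1) * ((N - D) * D) := by ring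
          _ ≤ d * c := mul_le_mul hkr h3 (mul_nonneg (by linarith) hDpos.le) hd'.le
      have h5 : (d : ℝ) * c ≤ 2 * c * (D * N) := by
        have : (d : ℝ) ≤ D * N := by nlinarith
        nlinarith
      nlinarith
    linarith
  · have h1 : ((c : ℝ) + k) / N ≤ ((c : ℝ) + k) / D :=
      div_le_div_of_nonneg_left (by positivity) hDpos hDN
    have h2 : ((c : ℝ) + k) / D - ((k : ℝ) + 1) / D ≤ 2 * c / D := by
      rw [← sub_div]
      exact div_le_div_of_nonneg_right (by linarith) hDpos.le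
    linarith

end Pool.Agent.H.MP_4bcbbd_co.K
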