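import Pool.Agent.H.MP_4bcbbd_co.h30.GauPolar

/-!
MP_4bcbbd_co, theorem H: the limit shape near zero; Lipschitz bound.
-/

set_option autoImplicit false

namespace Pool.Agent.H.MP_4bcbbd_co.K

open scoped BigOperators
open MeasureTheory
open Pool.Agent.H.MP_4bcbbd_co.F

/-- the leading coefficient of `psi c` at `0`. -/
noncomputable def Kc (c : ℕ) : ℝ :=
  rho c ^ c / (2 ^ ((c : ℝ) / 2) * Real.Gamma ((c : ℝ) / 2 + 1))

lemma psi_rho_pos {c : ℕ} (hc : 1 ≤ c) : 0 < rho c := by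
  have hc' : (1 : ℝ) ≤ c := by exact_mod_cast hc
  have g1 : 0 < Real.Gamma ((c : ℝ) / 2) := Real.Gamma_pos_of_pos (by linarith)
  have g2 : 0 < Real.Gamma (((c : ℝ) + 1) / 2) := Real.Gamma_pos_of_pos (by linarith)
  have h1 : 0 < Real.sqrt c := Real.sqrt_pos.2 (by linarith)
  have h2 : 0 < Real.sqrt Real.pi := Real.sqrt_pos.2 Real.pi_pos
  unfold rho kap
  positivity

theorem Kc_pos {c : ℕ} (hc : 1 ≤ c) : 0 < Kc c := by
  have hc' : (1 : ℝ) ≤ c := by exact_mod_cast hc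
  have g1 : 0 < Real.Gamma ((c : ℝ) / 2 + 1) := Real.Gamma_pos_of_pos (by linarith)
  have h1 := psi_rho_pos hc
  unfold Kc
  positivity

lemma psi_norm {c : ℕ} (hc : 1 ≤ c) :
    (∫ s in Set.Ioi (0 : ℝ), s ^ (c - 1) * Real.exp (-s ^ 2 / 2))
      = 2 ^ ((c : ℝ) / 2 - 1) * Real.Gamma ((c : ℝ) / 2) := by
  rw [gp_gamma]
  have e1 : (((c - 1 : ℕ) : ℝ) - 1) / 2 = (c : ℝ) / 2 - 1 := by
    rw [Nat.cast_sub hc]; push_cast; ring
  have e2 : (((c - 1 : ℕ) : ℝ) + 1) / 2 = (c : ℝ) / 2 := by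
    rw [Nat.cast_sub hc]; push_cast; ring
  rw [e1, e2]

lemma psi_norm_pos {c : ℕ} (hc : 1 ≤ c) :
    0 < ∫ s in Set.Ioi (0 : ℝ), s ^ (c - 1) * Real.exp (-s ^ 2 / 2) := by
  rw [psi_norm hc]
  have hc' : (1 : ℝ) ≤ c := by exact_mod_cast hc
  have g1 : 0 < Real.Gamma ((c : ℝ) / 2) := Real.Gamma_pos_of_pos (by linarith)
  positivity

lemma psi_Kc {c : ℕ} (hc : 1 ≤ c) (x : ℝ) :
    Kc c * x ^ c = ((rho c * x) ^ c / c) /
      ∫ s in Set.Ioi (0 : ℝ), s ^ (c - 1) * Real.exp (-s ^ 2 / 2) := by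
  have hc' : (1 : ℝ) ≤ c := by exact_mod_cast hc
  have hc0 : (c : ℝ) / 2 ≠ 0 := by positivity
  have g1 : 0 < Real.Gamma ((c : ℝ) / 2) := Real.Gamma_pos_of_pos (by linarith)
  have p1 : (0 : ℝ) < 2 ^ ((c : ℝ) / 2 - 1) := Real.rpow_pos_of_pos two_pos _
  have p2 : (2 : ℝ) ^ ((c : ℝ) / 2) = 2 ^ ((c : ℝ) / 2 - 1) * 2 := by
    rw [← Real.rpow_add_one two_ne_zero]
    congr 1
    ring
  rw [psi_norm hc, Kc, Real.Gamma_add_one hc0, p2, mul_pow]
  have : (c : ℝ) ≠ 0 := by positivity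
  field_simp

lemma psi_formula {c : ℕ} (hc : 1 ≤ c) {x : ℝ} (hx : 0 ≤ x) :
    psi c x = (∫ s in (0 : ℝ)..(rho c * x), s ^ (c - 1) * Real.exp (-s ^ 2 / 2)) /
        ∫ s in Set.Ioi (0 : ℝ), s ^ (c - 1) * Real.exp (-s ^ 2 / 2) :=
  gam_ball_formula hc (mul_nonneg (psi_rho_pos hc).le hx)

lemma psi_int_pow {c : ℕ} (hc : 1 ≤ c) (r : ℝ) :
    ∫ s in (0 : ℝ)..r, s ^ (c - 1) = r ^ c / c := by
  rw [integral_pow]
  have : c - 1 + 1 = c := Nat.sub_add_cancel hc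
  rw [this, zero_pow (by omega), sub_zero]
  congr 1
  rw [Nat.cast_sub hc]; push_cast; ring

lemma psi_cont (c : ℕ) : Continuous fun s : ℝ => s ^ (c - 1) * Real.exp (-s ^ 2 / 2) := by
  fun_prop

/-- PROOF: `gam_ball_formula`, `gp_gamma` (`∫ s^(c-1) e^{-s²/2} = 2^(c/2-1) Γ(c/2)`), `e^{-s²/2} ≤ 1`, `Γ(c/2+1) = (c/2) Γ(c/2)`. -/
theorem psi_le {c : ℕ} (hc : 1 ≤ c) {x : ℝ} (hx : 0 ≤ x) : psi c x ≤ Kc c * x ^ c := by
  rw [psi_formula hc hx, psi_Kc hc, ← psi_int_pow hc]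
  refine div_le_div_of_nonneg_right ?_ (psi_norm_pos hc).le
  have hr : 0 ≤ rho c * x := mul_nonneg (psi_rho_pos hc).le hx
  refine intervalIntegral.integral_mono_on hr ((psi_cont c).intervalIntegrable _ _)
    ((continuous_pow (c - 1)).intervalIntegrable _ _) fun s hs => ?_
  have h1 : Real.exp (-s ^ 2 / 2) ≤ 1 := Real.exp_le_one_iff.2 (by nlinarith [sq_nonneg s])
  have h2 : 0 ≤ s ^ (c - 1) := pow_nonneg hs.1 _
  nlinarith

theorem psi_ge {c : ℕ} (hc : 1 ≤ c) {x : ℝ} (hx : 0 ≤ x) :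
    Kc c * x ^ c * Real.exp (-(rho c * x) ^ 2 / 2) ≤ psi c x := by
  rw [psi_formula hc hx, psi_Kc hc, ← psi_int_pow hc, div_mul_eq_mul_div]
  refine div_le_div_of_nonneg_right ?_ (psi_norm_pos hc).le
  have hr : 0 ≤ rho c * x := mul_nonneg (psi_rho_pos hc).le hx
  rw [← intervalIntegral.integral_mul_const]
  refine intervalIntegral.integral_mono_on hr
    (((continuous_pow (c - 1)).mul continuous_const).intervalIntegrable _ _)
    ((psi_cont c).intervalIntegrable _ _) fun s hs => ?_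
  have h1 : Real.exp (-(rho c * x) ^ 2 / 2) ≤ Real.exp (-s ^ 2 / 2) := by
    apply Real.exp_le_exp.2
    have := pow_le_pow_left₀ hs.1 hs.2 2
    linarith
  exact mul_le_mul_of_nonneg_left h1 (pow_nonneg hs.1 _)

/-- the density of the radius is bounded. -/
lemma psi_dens_bdd (c : ℕ) : ∃ M : ℝ, 0 < M ∧ ∀ s : ℝ, 0 ≤ s →
    s ^ c * Real.exp (-s ^ 2 / 2) ≤ M := by
  refine ⟨(c.factorial : ℝ) * Real.exp 1, by positivity, fun s hs => ?_⟩
  have h1 : s ^ c / (c.factorial : ℝ) ≤ Real.exp s := Real.pow_div_factorial_le_exp s hs c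
  have h2 : s ^ c ≤ c.factorial * Real.exp s := by
    rw [div_le_iff₀ (by positivity)] at h1
    linarith
  calc s ^ c * Real.exp (-s ^ 2 / 2) ≤ (c.factorial * Real.exp s) * Real.exp (-s ^ 2 / 2) :=
        mul_le_mul_of_nonneg_right h2 (Real.exp_pos _).le
    _ = c.factorial * Real.exp (s + -s ^ 2 / 2) := by rw [mul_assoc, ← Real.exp_add]
    _ ≤ c.factorial * Real.exp 1 := by
        refine mul_le_mul_of_nonneg_left (Real.exp_le_exp.2 ?_) (by positivity)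
        nlinarith [sq_nonneg (s - 1)]

/-- PROOF: the density `s^(c-1) e^{-s²/2}` of the radius is bounded. -/
theorem psi_lip {c : ℕ} (hc : 1 ≤ c) : ∃ L : ℝ, 0 < L ∧ ∀ x y : ℝ, 0 ≤ x → x ≤ y →
    psi c y - psi c x ≤ L * (y - x) ∧ psi c x ≤ psi c y := by
  obtain ⟨M, hM, hb⟩ := psi_dens_bdd (c - 1)
  have hI := psi_norm_pos hc
  have hrho := psi_rho_pos hc
  refine ⟨M * rho c / ∫ s in Set.Ioi (0 : ℝ), s ^ (c - 1) * Real.exp (-s ^ 2 / 2),
    by positivity, fun x y hx hxy => ?_⟩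
  have hy : 0 ≤ y := hx.trans hxy
  have hrx : 0 ≤ rho c * x := mul_nonneg hrho.le hx
  have hrxy : rho c * x ≤ rho c * y := mul_le_mul_of_nonneg_left hxy hrho.le
  rw [psi_formula hc hx, psi_formula hc hy]
  have hsub : (∫ s in (0 : ℝ)..(rho c * y), s ^ (c - 1) * Real.exp (-s ^ 2 / 2))
      = (∫ s in (0 : ℝ)..(rho c * x), s ^ (c - 1) * Real.exp (-s ^ 2 / 2))
        + ∫ s in (rho c * x)..(rho c * y), s ^ (c - 1) * Real.exp (-s ^ 2 / 2) :=
    (intervalIntegral.integral_add_adjacent_intervals ((psi_cont c).intervalIntegrable _ _)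
      ((psi_cont c).intervalIntegrable _ _)).symm
  have hup : (∫ s in (rho c * x)..(rho c * y), s ^ (c - 1) * Real.exp (-s ^ 2 / 2))
      ≤ M * (rho c * (y - x)) := by
    have h := intervalIntegral.integral_mono_on hrxy ((psi_cont c).intervalIntegrable _ _)
      (continuous_const.intervalIntegrable (μ := volume) _ _)
      (fun s hs => hb s (hrx.trans hs.1))
    rw [intervalIntegral.integral_const, smul_eq_mul] at h
    calc _ ≤ _ := h
      _ = M * (rho c * (y - x)) := by ring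
  have hlo : 0 ≤ ∫ s in (rho c * x)..(rho c * y), s ^ (c - 1) * Real.exp (-s ^ 2 / 2) :=
    intervalIntegral.integral_nonneg hrxy fun s hs =>
      mul_nonneg (pow_nonneg (hrx.trans hs.1) _) (Real.exp_pos _).le
  constructor
  · rw [← sub_div, div_mul_eq_mul_div]
    refine div_le_div_of_nonneg_right ?_ hI.le
    rw [hsub]
    linarith
  · refine div_le_div_of_nonneg_right ?_ hI.le
    rw [hsub]
    linarith

end Pool.Agent.H.MP_4bcbbd_co.K
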