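import Pool.Agent.H.MP_4bcbbd_co.h39h.Asym
import Pool.Agent.H.MP_4bcbbd_co.h39h.Psi
import Pool.Agent.H.MP_4bcbbd_co.h39f.Final

/-!
MP_4bcbbd_co, theorem H: the top faces, lower bound.
-/

set_option autoImplicit false

namespace Pool.Agent.H.MP_4bcbbd_co.K

open scoped BigOperators
open Pool.Agent.H.MP_4bcbbd_co.F

theorem topl_mu {η K r C : ℝ} (hη : 0 < η) (hK : 0 < K) (hC : 0 < C) :
    ∃ μ : ℝ, 0 < μ ∧ μ ≤ 1 / 4 ∧ μ ^ 2 ≤ η ∧ 4 * μ ^ 2 * C ≤ η * K ∧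
      1 - η ≤ Real.exp (-(r * (2 * μ)) ^ 2 / 2) := by
  obtain ⟨m, hm⟩ : ∃ m : ℝ, m = min (1 / 16) (min η (min (η * K / (4 * C))
    (η / (2 * r ^ 2 + 1)))) := ⟨_, rfl⟩
  have hm0 : 0 < m := by
    rw [hm]
    exact lt_min (by norm_num) (lt_min hη (lt_min (by positivity) (by positivity)))
  have h1 : m ≤ 1 / 16 := by rw [hm]; exact min_le_left _ _
  have h2 : m ≤ η := by rw [hm]; exact (min_le_right _ _).trans (min_le_left _ _)
  have h3 : m ≤ η * K / (4 * C) := by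
    rw [hm]; exact (min_le_right _ _).trans ((min_le_right _ _).trans (min_le_left _ _))
  have h4 : m ≤ η / (2 * r ^ 2 + 1) := by
    rw [hm]; exact (min_le_right _ _).trans ((min_le_right _ _).trans (min_le_right _ _))
  have hs : Real.sqrt m ^ 2 = m := Real.sq_sqrt hm0.le
  have hs0 := Real.sqrt_pos.2 hm0
  refine ⟨Real.sqrt m, hs0, ?_, by rw [hs]; exact h2, ?_, ?_⟩
  · rw [Real.sqrt_le_left (by norm_num)]
    norm_num
    linarith
  · rw [hs]
    rw [le_div_iff₀ (by positivity)] at h3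
    linarith
  · have h5 : -(r * (2 * Real.sqrt m)) ^ 2 / 2 = -(2 * r ^ 2 * m) := by
      rw [mul_pow, mul_pow, hs]
      ring
    rw [le_div_iff₀ (by positivity)] at h4
    rw [h5]
    have h7 := Real.add_one_le_exp (-(2 * r ^ 2 * m))
    nlinarith

theorem topl_psi {c : ℕ} (hc : 1 ≤ c) {η μ x : ℝ} (hμ : 0 < μ) (hx : μ ≤ x) (hx2 : x ≤ 2 * μ)
    (hη : η ≤ 1) (h : 1 - η ≤ Real.exp (-(rho c * (2 * μ)) ^ 2 / 2)) :
    Kc c * μ ^ c * (1 - η) ≤ psi c x := by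
  have hK := Kc_pos hc
  have hr := rho_pos hc
  have hx0 : 0 ≤ x := by linarith
  refine le_trans ?_ (psi_ge hc hx0)
  have h1 : μ ^ c ≤ x ^ c := pow_le_pow_left₀ hμ.le hx c
  have h2 : 1 - η ≤ Real.exp (-(rho c * x) ^ 2 / 2) := by
    refine h.trans (Real.exp_le_exp.2 ?_)
    have h3 : rho c * x ≤ rho c * (2 * μ) := mul_le_mul_of_nonneg_left hx2 hr.le
    have h4 : (rho c * x) ^ 2 ≤ (rho c * (2 * μ)) ^ 2 := pow_le_pow_left₀ (by positivity) h3 2
    linarith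
  exact mul_le_mul (mul_le_mul_of_nonneg_left h1 hK.le) h2 (by linarith) (by positivity)

/-- the conditions on `d`. -/
theorem topl_large (c : ℕ) {η μ : ℝ} (hη : 0 < η) (hη1 : η ≤ 1) (hμ : 0 < μ) (hμ1 : μ ≤ 1 / 4) :
    ∃ N : ℕ, ∀ d : ℕ, N ≤ d → 4 ≤ Real.sqrt d ∧ 1 / Real.sqrt d ≤ μ ∧
      (c : ℝ) * (c / (μ * Real.sqrt d)) ≤ η ∧ (c : ℝ) ^ 2 / d ≤ η ∧ c ≤ d := by
  obtain ⟨N, -, hN⟩ := polya_large (δ := η * μ / ((c : ℝ) ^ 2 + 1)) (by positivity)
  refine ⟨N + 1, fun d hd => ?_⟩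
  have h := hN d (by omega)
  have hd1 : (1 : ℝ) ≤ d := by exact_mod_cast (by omega : 1 ≤ d)
  obtain ⟨s, hs⟩ : ∃ s : ℝ, s = Real.sqrt d := ⟨_, rfl⟩
  have hs1 : 1 ≤ s := by rw [hs]; exact Real.one_le_sqrt.2 hd1
  have hss : s * s = d := by rw [hs]; exact Real.mul_self_sqrt (by linarith)
  rw [← hs] at h ⊢
  have hs0 : 0 < s := by linarith
  have hc2 : (0 : ℝ) ≤ (c : ℝ) ^ 2 := by positivity
  -- `(c² + 1) / s ≤ η μ`
  have h1 : ((c : ℝ) ^ 2 + 1) ≤ η * μ * s := by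
    rw [div_le_div_iff₀ hs0 (by positivity)] at h
    linarith
  have hημ : η * μ ≤ μ := by nlinarith
  have h2 : 1 ≤ μ * s := by nlinarith [mul_le_mul_of_nonneg_right hημ hs0.le]
  have h3 : 4 ≤ s := by nlinarith
  have h4 : (c : ℝ) ^ 2 ≤ η * d := by
    rw [← hss]
    have h5 : η * μ * s ≤ η * (s * s) := by
      have : μ ≤ s := by linarith
      nlinarith [mul_pos hη hs0]
    linarith
  refine ⟨h3, ?_, ?_, ?_, ?_⟩
  · rw [div_le_iff₀ hs0]
    exact h2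
  · have h6 : 0 < μ * s := by positivity
    rw [← mul_div_assoc, div_le_iff₀ h6]
    nlinarith
  · rw [div_le_iff₀ (by linarith)]
    exact h4
  · have h7 : (c : ℝ) ^ 2 ≤ d := by
      have : η * d ≤ d := by nlinarith
      linarith
    have h8 : c ^ 2 ≤ d := by exact_mod_cast h7
    nlinarith [sq_nonneg ((c : ℤ) - 1), Nat.le_self_pow (n := 2) (by norm_num) c]

/-- the two indices. -/
theorem topl_floor {d : ℕ} {μ : ℝ} (hμ : 0 < μ) (hμ1 : μ ≤ 1 / 4) (hs : 4 ≤ Real.sqrt d) :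
    ∃ a b : ℕ, (a : ℝ) ≤ μ * Real.sqrt d ∧ μ * Real.sqrt d < a + 1 ∧
      (∀ k : ℕ, (k : ℝ) ≤ μ * Real.sqrt d → k ≤ a) ∧ (b : ℝ) ≤ Real.sqrt d ∧
      Real.sqrt d < b + 1 ∧ a ≤ b ∧ 1 ≤ b ∧ 4 * b ≤ d := by
  have hs0 : 0 ≤ Real.sqrt d := by linarith
  have hss : Real.sqrt d * Real.sqrt d = d := Real.mul_self_sqrt (Nat.cast_nonneg d)
  refine ⟨⌊μ * Real.sqrt d⌋₊, ⌊Real.sqrt d⌋₊, Nat.floor_le (by positivity),
    Nat.lt_floor_add_one _, fun k hk => Nat.le_floor hk, Nat.floor_le hs0,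
    Nat.lt_floor_add_one _, Nat.floor_le_floor (by nlinarith), ?_, ?_⟩
  · refine Nat.le_floor ?_
    push_cast
    linarith
  · have h1 := Nat.floor_le hs0
    have h2 : 4 * (⌊Real.sqrt d⌋₊ : ℝ) ≤ d := by nlinarith
    exact_mod_cast h2

theorem topl_upper {c d b : ℕ} (hc : 1 ≤ c) (hcd : c ≤ d) (hs : 4 ≤ Real.sqrt d)
    (hb1 : (b : ℝ) ≤ Real.sqrt d) (hb2 : Real.sqrt d < b + 1) (hb : 4 * b ≤ d) {r : ℝ}
    (hr : r ≤ 1) : Ek c d b * (r / Lk c d b) ≤ Real.exp 1 * 2 ^ c := by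
  have hd : 0 < d := by omega
  have hdR : (0 : ℝ) < d := by exact_mod_cast hd
  have hss : Real.sqrt d * Real.sqrt d = d := Real.mul_self_sqrt (Nat.cast_nonneg d)
  have hE0 := Ek_pos (c := c) (d := d) (k := b) (by omega)
  have hbR : 4 * (b : ℝ) ≤ d := by exact_mod_cast hb
  have hb0 : (0 : ℝ) ≤ b := Nat.cast_nonneg b
  have hE : Ek c d b ≤ Real.exp 1 := by
    refine (Ek_le (c := c) (d := d) (k := b) (by omega)).trans (Real.exp_le_exp.2 ?_)
    rw [div_le_one (by linarith)]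
    have h1 : (b : ℝ) ^ 2 ≤ d := by nlinarith
    linarith
  have hL0 := Lk_pos (c := c) hd b
  have hn : 0 < Real.sqrt ((d + c : ℕ) : ℝ) := by
    refine Real.sqrt_pos.2 ?_
    exact_mod_cast (by omega : 0 < d + c)
  have hL : (1 / 2 : ℝ) ^ c ≤ Lk c d b := by
    refine le_trans (pow_le_pow_left₀ (by norm_num) ?_ c) (Lk_bounds hd b).1
    rw [div_le_div_iff₀ two_pos hn]
    have h1 : Real.sqrt ((d + c : ℕ) : ℝ) ≤ 2 * Real.sqrt d := by
      rw [Real.sqrt_le_left (by positivity), mul_pow, Real.sq_sqrt hdR.le]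
      have : ((d + c : ℕ) : ℝ) ≤ 4 * d := by exact_mod_cast (by omega : d + c ≤ 4 * d)
      linarith
    linarith
  have h2 : r / Lk c d b ≤ 2 ^ c := by
    rw [div_le_iff₀ hL0]
    have h3 : (1 : ℝ) ≤ 2 ^ c * Lk c d b := by
      calc (1 : ℝ) = 2 ^ c * (1 / 2) ^ c := by rw [← mul_pow]; norm_num
        _ ≤ 2 ^ c * Lk c d b := mul_le_mul_of_nonneg_left hL (by positivity)
    linarith
  calc Ek c d b * (r / Lk c d b) ≤ Ek c d b * 2 ^ c := mul_le_mul_of_nonneg_left h2 hE0.le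
    _ ≤ Real.exp 1 * 2 ^ c := mul_le_mul_of_nonneg_right hE (by positivity)

theorem topl_lower {c d a : ℕ} (hc : 1 ≤ c) (hd : 0 < d) {η μ r : ℝ} (hη : 0 < η)
    (hη1 : η ≤ 1 / 12) (hμ : 0 < μ) (ha : (a : ℝ) ≤ μ * Real.sqrt d) (ha2 : 2 * a ≤ d + 1)
    (hcs : (c : ℝ) * (c / (μ * Real.sqrt d)) ≤ η) (hcd : (c : ℝ) ^ 2 / d ≤ η)
    (hr : Kc c * μ ^ c * (1 - 2 * η) ≤ r) :
    Kc c * (1 - 4 * η) ≤ Ek c d a * (r / Lk c d a) := by
  have hdR : (0 : ℝ) < d := by exact_mod_cast hd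
  have hs : 0 < Real.sqrt d := Real.sqrt_pos.2 hdR
  have hK := Kc_pos hc
  have hL0 := Lk_pos (c := c) hd a
  have hn : 0 < Real.sqrt ((d + c : ℕ) : ℝ) := by
    refine Real.sqrt_pos.2 ?_
    exact_mod_cast (by omega : 0 < d + c)
  have hE : 1 - η ≤ Ek c d a := by
    have := Ek_ge (c := c) hd ha2
    linarith
  have hL : Lk c d a ≤ μ ^ c * Real.exp η := by
    refine (Lk_bounds hd a).2.trans ?_
    have h1 : ((c : ℝ) + a) / Real.sqrt ((d + c : ℕ) : ℝ) ≤ μ * Real.exp (c / (μ * Real.sqrt d)) := by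
      have h2 : ((c : ℝ) + a) / Real.sqrt ((d + c : ℕ) : ℝ) ≤ (c + a) / Real.sqrt d := by
        refine div_le_div_of_nonneg_left (by positivity) hs (Real.sqrt_le_sqrt ?_)
        push_cast
        linarith [(Nat.cast_nonneg c : (0 : ℝ) ≤ c)]
      have h3 : ((c : ℝ) + a) / Real.sqrt d ≤ μ * (c / (μ * Real.sqrt d) + 1) := by
        rw [div_le_iff₀ hs]
        have h4 : μ * (c / (μ * Real.sqrt d) + 1) * Real.sqrt d = c + μ * Real.sqrt d := by
          field_simp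
        rw [h4]
        linarith
      exact h2.trans (h3.trans (mul_le_mul_of_nonneg_left (Real.add_one_le_exp _) hμ.le))
    calc (((c : ℝ) + a) / Real.sqrt ((d + c : ℕ) : ℝ)) ^ c
        ≤ (μ * Real.exp (c / (μ * Real.sqrt d))) ^ c := pow_le_pow_left₀ (by positivity) h1 c
      _ = μ ^ c * Real.exp (c * (c / (μ * Real.sqrt d))) := by
        rw [mul_pow, ← Real.exp_nat_mul]
      _ ≤ μ ^ c * Real.exp η :=
        mul_le_mul_of_nonneg_left (Real.exp_le_exp.2 hcs) (by positivity)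
  have hμc : 0 < μ ^ c := by positivity
  have h5 : Kc c * (1 - 2 * η) * (1 - η) ≤ r / Lk c d a := by
    rw [le_div_iff₀ hL0]
    have h6 : 1 - η ≤ Real.exp (-η) := by
      have := Real.add_one_le_exp (-η)
      linarith
    have h7 : (1 - η) * Real.exp η ≤ 1 := by
      calc (1 - η) * Real.exp η ≤ Real.exp (-η) * Real.exp η :=
            mul_le_mul_of_nonneg_right h6 (Real.exp_pos _).le
        _ = 1 := by rw [← Real.exp_add, neg_add_cancel, Real.exp_zero]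
    have h8 : 0 ≤ Kc c * (1 - 2 * η) := mul_nonneg hK.le (by linarith)
    calc Kc c * (1 - 2 * η) * (1 - η) * Lk c d a
        ≤ Kc c * (1 - 2 * η) * (1 - η) * (μ ^ c * Real.exp η) :=
          mul_le_mul_of_nonneg_left hL (mul_nonneg h8 (by linarith))
      _ = Kc c * (1 - 2 * η) * μ ^ c * ((1 - η) * Real.exp η) := by ring
      _ ≤ Kc c * (1 - 2 * η) * μ ^ c * 1 :=
          mul_le_mul_of_nonneg_left h7 (mul_nonneg h8 hμc.le)
      _ = Kc c * μ ^ c * (1 - 2 * η) := by ring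
      _ ≤ r := hr
  have h9 : 0 ≤ Kc c * (1 - 2 * η) * (1 - η) :=
    mul_nonneg (mul_nonneg hK.le (by linarith)) (by linarith)
  calc Kc c * (1 - 4 * η) ≤ (1 - η) * (Kc c * (1 - 2 * η) * (1 - η)) := by
        have h10 : 1 - 4 * η ≤ (1 - η) * ((1 - 2 * η) * (1 - η)) := by nlinarith [sq_nonneg η]
        calc Kc c * (1 - 4 * η) ≤ Kc c * ((1 - η) * ((1 - 2 * η) * (1 - η))) :=
              mul_le_mul_of_nonneg_left h10 hK.le
          _ = (1 - η) * (Kc c * (1 - 2 * η) * (1 - η)) := by ring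
    _ ≤ Ek c d a * (r / Lk c d a) := mul_le_mul hE h5 h9 (by linarith)

theorem topl_end {c d k : ℕ} (hc : 1 ≤ c) (hd : 0 < d) {η μ r : ℝ} (hη : 0 < η)
    (hη1 : η ≤ 1 / 12) (hμ2 : μ ^ 2 ≤ η) (hk : (k : ℝ) ≤ μ * Real.sqrt d)
    (hk2 : 4 * k ≤ d) (h : Kc c * (1 - 5 * η) ≤ Ek c d k * (r / Lk c d k)) :
    (1 - 6 * η) * (Kc c * Lk c d k) ≤ r := by
  have hdR : (0 : ℝ) < d := by exact_mod_cast hd
  have hss : Real.sqrt d * Real.sqrt d = d := Real.mul_self_sqrt (Nat.cast_nonneg d)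
  have hK := Kc_pos hc
  have hL0 := Lk_pos (c := c) hd k
  have hE0 := Ek_pos (c := c) (d := d) (k := k) (by omega)
  have hk2R : 4 * (k : ℝ) ≤ d := by exact_mod_cast hk2
  have hk0 : (0 : ℝ) ≤ k := Nat.cast_nonneg k
  have hE : Ek c d k ≤ Real.exp η := by
    refine (Ek_le (c := c) (d := d) (k := k) (by omega)).trans (Real.exp_le_exp.2 ?_)
    rw [div_le_iff₀ (by linarith)]
    have h1 : (k : ℝ) ^ 2 ≤ μ ^ 2 * d := by
      calc (k : ℝ) ^ 2 ≤ (μ * Real.sqrt d) ^ 2 := pow_le_pow_left₀ hk0 hk 2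
        _ = μ ^ 2 * d := by rw [mul_pow, Real.sq_sqrt hdR.le]
    have h2 : μ ^ 2 * d ≤ η * d := mul_le_mul_of_nonneg_right hμ2 hdR.le
    have h3 : η * d ≤ η * (2 * ((d : ℝ) - 2 * k)) := mul_le_mul_of_nonneg_left (by linarith) hη.le
    linarith
  have h5 : 0 ≤ Kc c * (1 - 5 * η) := mul_nonneg hK.le (by linarith)
  have h6 : 0 ≤ r / Lk c d k := by
    by_contra hcon
    push Not at hcon
    have := mul_neg_of_pos_of_neg hE0 hcon
    linarith
  have h7 : Kc c * (1 - 5 * η) ≤ Real.exp η * (r / Lk c d k) :=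
    h.trans (mul_le_mul_of_nonneg_right hE h6)
  have h8 : 1 - η ≤ Real.exp (-η) := by
    have := Real.add_one_le_exp (-η)
    linarith
  have h9 : Kc c * (1 - 5 * η) * (1 - η) ≤ r / Lk c d k := by
    calc Kc c * (1 - 5 * η) * (1 - η) ≤ Kc c * (1 - 5 * η) * Real.exp (-η) :=
          mul_le_mul_of_nonneg_left h8 h5
      _ ≤ Real.exp η * (r / Lk c d k) * Real.exp (-η) :=
          mul_le_mul_of_nonneg_right h7 (Real.exp_pos _).le
      _ = (Real.exp η * Real.exp (-η)) * (r / Lk c d k) := by ring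
      _ = r / Lk c d k := by rw [← Real.exp_add, add_neg_cancel, Real.exp_zero, one_mul]
  rw [le_div_iff₀ hL0] at h9
  refine le_trans ?_ h9
  have h10 : 1 - 6 * η ≤ (1 - 5 * η) * (1 - η) := by nlinarith [sq_nonneg η]
  calc (1 - 6 * η) * (Kc c * Lk c d k) ≤ (1 - 5 * η) * (1 - η) * (Kc c * Lk c d k) :=
        mul_le_mul_of_nonneg_right h10 (by positivity)
    _ = Kc c * (1 - 5 * η) * (1 - η) * Lk c d k := by ring

/-- the top faces, lower bound. PROOF. `μ` small, `k* = ⌊μ √d⌋`, `k' = ⌊√d⌋`: a polytope which is maximal for `k*`; `Fk_conv` for `k* ≤ k'`, F (`main`)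
at `k*`, `ratio ≤ 1` at `k'`; then `Fk V k ≥ Fk V 0` (`Fk_mono`) for all `k ≤ k*`. -/
theorem top_lower {c : ℕ} (hc : 1 ≤ c) {ε : ℝ} (hε : 0 < ε) : ∃ (N : ℕ) (μ : ℝ), 0 < μ ∧
    ∀ d, N ≤ d → ∀ k : ℕ, (k : ℝ) ≤ μ * Real.sqrt d → k < d →
      (1 - ε) * (Kc c * Lk c d k) ≤ ratio c d (d - 1 - k) := by
  have hK := Kc_pos hc
  obtain ⟨η, hη0, hη1, hηε⟩ : ∃ η : ℝ, 0 < η ∧ η ≤ 1 / 12 ∧ 6 * η ≤ ε := by
    refine ⟨min ε 1 / 12, ?_, ?_, ?_⟩
    · have := lt_min hε one_pos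
      linarith
    · have := min_le_right ε 1
      linarith
    · have := min_le_left ε 1
      have := lt_min hε one_pos
      linarith
  obtain ⟨μ, hμ, hμ1, hμ2, hμ3, hμ4⟩ := topl_mu (r := rho c) hη0 hK
    (show (0 : ℝ) < Real.exp 1 * 2 ^ c by positivity)
  have hμc : 0 < μ ^ c := by positivity
  obtain ⟨N₁, h1⟩ := main hc (ε := η * (Kc c * μ ^ c)) (by positivity)
  obtain ⟨N₂, h2⟩ := topl_large c hη0 (by linarith) hμ hμ1
  refine ⟨N₁ + N₂ + 1, μ, hμ, fun d hd k hk hkd => ?_⟩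
  obtain ⟨hs4, hs1, hcs, hcd, hcd'⟩ := h2 d (by omega)
  obtain ⟨a, b, ha1, ha2, ha3, hb1, hb2, hab, hb3, hb4⟩ := topl_floor hμ hμ1 hs4
  have hd0 : 0 < d := by omega
  have hka := ha3 k hk
  have hs0 : 0 < Real.sqrt d := by linarith
  -- the value at `a`
  have hra : Kc c * μ ^ c * (1 - 2 * η) ≤ ratio c d (d - 1 - a) := by
    have h3 := h1 d (by omega) (d - 1 - a) (by omega)
    have h4 : ((d : ℝ) - ((d - 1 - a : ℕ) : ℝ)) = a + 1 := by
      rw [Nat.cast_sub (by omega), Nat.cast_sub (by omega)]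
      push_cast
      ring
    rw [h4] at h3
    have h5 := topl_psi hc (η := η) (μ := μ) (x := ((a : ℝ) + 1) / Real.sqrt d) hμ
      (by rw [le_div_iff₀ hs0]; linarith)
      (by
        rw [add_div]
        have : (a : ℝ) / Real.sqrt d ≤ μ := by rw [div_le_iff₀ hs0]; exact ha1
        linarith) (by linarith) hμ4
    have h6 := (abs_le.1 h3).1
    linarith
  -- the polytope
  have hex : ∃ V : Finset (E d), CSData V ∧ Simp V ∧ V.card = 2 * (d + c) := by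
    by_contra hcon
    have h7 : ratio c d (d - 1 - a) = 0 := by
      unfold ratio
      rw [fin_empty hd0 _ _ hcon]
      simp
    have h8 : 0 < Kc c * μ ^ c * (1 - 2 * η) := mul_pos (by positivity) (by linarith)
    linarith
  obtain ⟨V, hV, hS, hcard, hmax⟩ := C.maxFaces_attained hd0 (d - 1 - a) hex
  obtain ⟨q, hq⟩ : ∃ q : ℕ → ℝ, q = fun k => ((fc V (d - k)).card : ℝ) /
      (2 ^ (d - k) * ((d + c).choose (d - k) : ℝ)) := ⟨_, rfl⟩
  have hqa : q a = ratio c d (d - 1 - a) := by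
    rw [hq]
    unfold ratio
    have e : d - 1 - a + 1 = d - a := by omega
    rw [hmax, e]
  have hqle : ∀ j < d, q j ≤ ratio c d (d - 1 - j) := by
    intro j hj
    have h9 := C.fc_le_maxFaces (i := d - 1 - j) hd0 hV hS hcard
    have e : d - 1 - j + 1 = d - j := by omega
    rw [e] at h9
    rw [hq]
    unfold ratio
    rw [e]
    refine div_le_div_of_nonneg_right ?_ (by positivity)
    exact_mod_cast h9
  obtain ⟨A, hA⟩ : ∃ A : ℝ, A = 2 ^ d * ((d + c : ℕ) : ℝ) ^ ((c : ℝ) / 2) := ⟨_, rfl⟩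
  have hA0 : 0 < A := by
    rw [hA]
    have : (0 : ℝ) < ((d + c : ℕ) : ℝ) := by exact_mod_cast (by omega : 0 < d + c)
    positivity
  have hF : ∀ j, 2 * j < d → Fk V j = A * (Ek c d j * (q j / Lk c d j)) := by
    intro j hj
    rw [hA, hq]
    exact Fk_ratio hj V
  have hconv := Fk_conv hV hS hab hb3 (by omega)
  have hmono := Fk_mono hV hS (Nat.zero_le k) (by omega)
  rw [hF a (by omega), hF 0 (by omega), hF b (by omega)] at hconv
  rw [hF 0 (by omega), hF k (by omega)] at hmono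
  have hmono' := le_of_mul_le_mul_left hmono hA0
  have hlow := topl_lower hc hd0 hη0 hη1 hμ ha1 (by omega) hcs hcd (hqa.symm ▸ hra)
  have hup := topl_upper hc hcd' hs4 hb1 hb2 hb4 (r := q b)
    ((hqle b (by omega)).trans (ratio_le_one hd0 (by omega)))
  have hab2 : ((a : ℝ) / b) ^ 2 ≤ 4 * μ ^ 2 := by
    have hb0 : (0 : ℝ) < b := by exact_mod_cast hb3
    have h10 : (a : ℝ) / b ≤ 2 * μ := by
      rw [div_le_iff₀ hb0]
      nlinarith
    calc ((a : ℝ) / b) ^ 2 ≤ (2 * μ) ^ 2 := pow_le_pow_left₀ (by positivity) h10 2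
      _ = 4 * μ ^ 2 := by ring
  have hconv' : Ek c d a * (q a / Lk c d a) - Ek c d 0 * (q 0 / Lk c d 0) ≤
      ((a : ℝ) / b) ^ 2 * (Ek c d b * (q b / Lk c d b)) := by
    refine le_of_mul_le_mul_left ?_ hA0
    calc A * (Ek c d a * (q a / Lk c d a) - Ek c d 0 * (q 0 / Lk c d 0))
        = A * (Ek c d a * (q a / Lk c d a)) - A * (Ek c d 0 * (q 0 / Lk c d 0)) := by ring
      _ ≤ ((a : ℝ) / b) ^ 2 * (A * (Ek c d b * (q b / Lk c d b))) := hconv
      _ = A * (((a : ℝ) / b) ^ 2 * (Ek c d b * (q b / Lk c d b))) := by ring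
  have hup' : ((a : ℝ) / b) ^ 2 * (Ek c d b * (q b / Lk c d b)) ≤ η * Kc c := by
    calc ((a : ℝ) / b) ^ 2 * (Ek c d b * (q b / Lk c d b))
        ≤ ((a : ℝ) / b) ^ 2 * (Real.exp 1 * 2 ^ c) :=
          mul_le_mul_of_nonneg_left hup (by positivity)
      _ ≤ 4 * μ ^ 2 * (Real.exp 1 * 2 ^ c) :=
          mul_le_mul_of_nonneg_right hab2 (by positivity)
      _ ≤ η * Kc c := hμ3
  have hk5 : Kc c * (1 - 5 * η) ≤ Ek c d k * (q k / Lk c d k) := by
    have : Kc c * (1 - 5 * η) = Kc c * (1 - 4 * η) - η * Kc c := by ring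
    linarith
  have hfin := topl_end hc hd0 hη0 hη1 hμ2 hk (by omega) hk5
  refine le_trans ?_ (hfin.trans (hqle k hkd))
  have hL0 := Lk_pos (c := c) hd0 k
  exact mul_le_mul_of_nonneg_right (by linarith) (by positivity)

end Pool.Agent.H.MP_4bcbbd_co.K
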