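import Pool.Agent.H.MP_4bcbbd_co.h39h.TopU
import Pool.Agent.H.MP_4bcbbd_co.h39h.TopL
import Pool.Agent.H.MP_4bcbbd_co.h39h.Lam
import Mathlib.Analysis.SpecialFunctions.Choose

/-!
MP_4bcbbd_co, theorem H: all face numbers with small relative error, for a fixed number of extra pairs of vertices.
-/

set_option autoImplicit false

namespace Pool.Agent.H.MP_4bcbbd_co.K

open scoped BigOperators Topology
open Pool.Agent.H.MP_4bcbbd_co.F
open Filter

theorem main_lam_nonneg (c d i : ℕ) : 0 ≤ lam c d i := by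
  unfold lam
  positivity

/-- the Gaussian factor is near one near zero. -/
theorem main_exp (c : ℕ) {ε : ℝ} (hε : 0 < ε) : ∃ μ : ℝ, 0 < μ ∧ ∀ x : ℝ, 0 ≤ x → x ≤ 2 * μ →
    1 - ε ≤ Real.exp (-(rho c * x) ^ 2 / 2) := by
  have hcont : Continuous fun x : ℝ => Real.exp (-(rho c * x) ^ 2 / 2) := by fun_prop
  have h0 : Real.exp (-(rho c * 0) ^ 2 / 2) = 1 := by simp
  have h1 : ∀ᶠ x : ℝ in 𝓝 0, 1 - ε < Real.exp (-(rho c * x) ^ 2 / 2) := by
    have h2 := hcont.tendsto 0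
    rw [h0] at h2
    exact h2.eventually (lt_mem_nhds (by linarith))
  rw [Metric.eventually_nhds_iff] at h1
  obtain ⟨δ, hδ, h2⟩ := h1
  refine ⟨δ / 3, by positivity, fun x hx hx2 => (h2 ?_).le⟩
  rw [Real.dist_eq, sub_zero, abs_of_nonneg hx]
  linarith

/-- The theorem. PROOF: `top_upper`, `top_lower`, `psi_le`, `psi_ge`, `lam_pow` for `k ≤ μ √d`; `F.main`, `psi_lip`, `lam_near` for the others. -/
theorem mainH {c : ℕ} (hc : 1 ≤ c) {ε : ℝ} (hε : 0 < ε) : ∃ N : ℕ, ∀ d, N ≤ d → ∀ i < d,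
    |ratio c d i - psi c (lam c d i)| ≤ ε * psi c (lam c d i) := by
  obtain ⟨ε₁, he1⟩ : ∃ e : ℝ, e = ε / (3 + ε) := ⟨_, rfl⟩
  have h3 : 0 < 3 + ε := by linarith
  have he0 : 0 < ε₁ := by rw [he1]; positivity
  have he2 : ε₁ < 1 := by rw [he1, div_lt_one h3]; linarith
  have he3 : ε₁ * (3 + ε) = ε := by rw [he1]; field_simp
  have he4 : ε₁ ≤ ε := by nlinarith
  obtain ⟨N₁, μ₁, hμ₁, hU⟩ := top_upper hc he0
  obtain ⟨N₂, μ₂, hμ₂, hL⟩ := top_lower hc he0
  obtain ⟨μ₀, hμ₀, hexp⟩ := main_exp c he0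
  obtain ⟨μ, hμe⟩ : ∃ μ : ℝ, μ = min μ₁ (min μ₂ μ₀) := ⟨_, rfl⟩
  have hμ : 0 < μ := by rw [hμe]; exact lt_min hμ₁ (lt_min hμ₂ hμ₀)
  have hm1 : μ ≤ μ₁ := by rw [hμe]; exact min_le_left _ _
  have hm2 : μ ≤ μ₂ := by rw [hμe]; exact (min_le_right _ _).trans (min_le_left _ _)
  have hm0 : μ ≤ μ₀ := by rw [hμe]; exact (min_le_right _ _).trans (min_le_right _ _)
  have hK := Kc_pos hc
  obtain ⟨L, hL0, hLip⟩ := psi_lip hc
  obtain ⟨p, hp⟩ : ∃ p : ℝ, p = Kc c * (μ / 2) ^ c * Real.exp (-(rho c * (μ / 2)) ^ 2 / 2) :=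
    ⟨_, rfl⟩
  have hp0 : 0 < p := by rw [hp]; positivity
  have hpp : ∀ x : ℝ, μ / 2 ≤ x → p ≤ psi c x := by
    intro x hx
    rw [hp]
    exact (psi_ge hc (by positivity)).trans (hLip _ _ (by positivity) hx).2
  have hcR : (0 : ℝ) ≤ c := Nat.cast_nonneg c
  obtain ⟨N₃, hN₃⟩ := main hc (ε := ε * p / 2) (by positivity)
  obtain ⟨N₄, hN₄1, hN₄⟩ := polya_large (δ := μ / 2 / (2 * c + 1)) (by positivity)
  obtain ⟨N₅, hN₅1, hN₅⟩ := polya_large (δ := ε * p / 2 / (L * (2 * c + 1))) (by positivity)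
  refine ⟨N₁ + N₂ + N₃ + N₄ + N₅ + 1, fun d hd i hi => ?_⟩
  obtain ⟨k, hk⟩ : ∃ k : ℕ, k = d - 1 - i := ⟨_, rfl⟩
  have hkd : k < d := by omega
  have hik : i = d - 1 - k := by omega
  have hki : (k : ℝ) + 1 = (d : ℝ) - i := by
    have : k + 1 + i = d := by omega
    rw [← this]
    push_cast
    ring
  have hdpos : (0 : ℝ) < d := by
    have : 0 < d := by omega
    exact_mod_cast this
  have hs : 0 < Real.sqrt d := Real.sqrt_pos.2 hdpos
  have e4 := hN₄ d (by omega)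
  have e5 := hN₅ d (by omega)
  rw [le_div_iff₀ (by positivity)] at e4 e5
  have hnear := lam_near hc hkd
  rw [← hik] at hnear
  obtain ⟨l, hl⟩ : ∃ l : ℝ, l = lam c d i := ⟨_, rfl⟩
  have hl0 : 0 ≤ l := by rw [hl]; exact main_lam_nonneg c d i
  rw [← hl] at hnear ⊢
  have e6 : 2 * c / Real.sqrt d ≤ μ / 2 := by
    calc 2 * c / Real.sqrt d = 1 / Real.sqrt d * (2 * c) := by ring
      _ ≤ 1 / Real.sqrt d * (2 * c + 1) := by
        refine mul_le_mul_of_nonneg_left (by linarith) (by positivity)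
      _ ≤ μ / 2 := e4
  have e7 : (2 * c + 1) / Real.sqrt d ≤ μ / 2 := by
    calc (2 * c + 1) / Real.sqrt d = 1 / Real.sqrt d * (2 * c + 1) := by ring
      _ ≤ μ / 2 := e4
  by_cases hkm : (k : ℝ) ≤ μ * Real.sqrt d
  · -- the top faces
    have u1 := hU d (by omega) k (hkm.trans (mul_le_mul_of_nonneg_right hm1 hs.le)) hkd
    have u2 := hL d (by omega) k (hkm.trans (mul_le_mul_of_nonneg_right hm2 hs.le)) hkd
    have hpow : l ^ c = Lk c d k := by rw [hl, hik]; exact lam_pow hc hkd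
    rw [← hik, ← hpow] at u1 u2
    have hl2 : l ≤ 2 * μ₀ := by
      have h1 : (k : ℝ) / Real.sqrt d ≤ μ := by rwa [div_le_iff₀ hs]
      have h2 : ((k : ℝ) + 1) / Real.sqrt d + 2 * c / Real.sqrt d =
          k / Real.sqrt d + (2 * c + 1) / Real.sqrt d := by ring
      have h4 := (abs_le.1 hnear).2
      linarith
    have v1 := psi_le hc hl0
    have v2 := psi_ge hc hl0
    have v3 := hexp l hl0 hl2
    obtain ⟨X, hX⟩ : ∃ X : ℝ, X = Kc c * l ^ c := ⟨_, rfl⟩
    have hX0 : 0 ≤ X := by rw [hX]; positivity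
    rw [← hX] at u1 u2 v1 v2
    have v4 : (1 - ε₁) * X ≤ psi c l := by
      refine le_trans ?_ v2
      rw [mul_comm]
      exact mul_le_mul_of_nonneg_left v3 hX0
    rw [abs_le]
    constructor
    · -- `(1 - ε₁) X ≤ ratio`, `psi ≤ X`
      have w1 : (1 - ε₁) * psi c l ≤ (1 - ε₁) * X := mul_le_mul_of_nonneg_left v1 (by linarith)
      have w2 : ε₁ * psi c l ≤ ε * psi c l := mul_le_mul_of_nonneg_right he4 (psi_nonneg c l)
      linarith
    · have w1 : (1 + ε₁) * X ≤ (1 + ε) * ((1 - ε₁) * X) := by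
        have w3 : 1 + ε₁ ≤ (1 + ε) * (1 - ε₁) := by nlinarith
        calc (1 + ε₁) * X ≤ (1 + ε) * (1 - ε₁) * X := mul_le_mul_of_nonneg_right w3 hX0
          _ = _ := by ring
      have w2 : (1 + ε) * ((1 - ε₁) * X) ≤ (1 + ε) * psi c l :=
        mul_le_mul_of_nonneg_left v4 (by linarith)
      linarith
  · push Not at hkm
    have g1 : μ ≤ ((k : ℝ) + 1) / Real.sqrt d := by
      rw [le_div_iff₀ hs]
      linarith
    have g2 : μ / 2 ≤ l := by
      have := (abs_le.1 hnear).1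
      linarith
    have g3 := hpp l g2
    have g4 := hN₃ d (by omega) i hi
    rw [← hki] at g4
    have g5 : |psi c (((k : ℝ) + 1) / Real.sqrt d) - psi c l| ≤
        L * |l - ((k : ℝ) + 1) / Real.sqrt d| := by
      rcases le_total l (((k : ℝ) + 1) / Real.sqrt d) with h | h
      · obtain ⟨q1, q2⟩ := hLip _ _ hl0 h
        rw [abs_of_nonneg (by linarith), abs_of_nonpos (by linarith)]
        linarith
      · obtain ⟨q1, q2⟩ := hLip _ _ (by positivity) h
        rw [abs_of_nonpos (by linarith), abs_of_nonneg (by linarith)]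
        linarith
    have g6 : L * |l - ((k : ℝ) + 1) / Real.sqrt d| ≤ ε * p / 2 := by
      calc L * |l - ((k : ℝ) + 1) / Real.sqrt d| ≤ L * (2 * c / Real.sqrt d) :=
            mul_le_mul_of_nonneg_left hnear hL0.le
        _ = 1 / Real.sqrt d * (L * (2 * c)) := by ring
        _ ≤ 1 / Real.sqrt d * (L * (2 * c + 1)) := by
          refine mul_le_mul_of_nonneg_left ?_ (by positivity)
          exact mul_le_mul_of_nonneg_left (by linarith) hL0.le
        _ ≤ ε * p / 2 := e5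
    have g7 : |ratio c d i - psi c l| ≤ |ratio c d i - psi c (((k : ℝ) + 1) / Real.sqrt d)| +
        |psi c (((k : ℝ) + 1) / Real.sqrt d) - psi c l| := abs_sub_le _ _ _
    have g8 : ε * p ≤ ε * psi c l := mul_le_mul_of_nonneg_left g3 hε.le
    linarith

/-- the factor of the number of the faces. -/
theorem main_binom {c d k : ℕ} (hk : k < d) :
    (2 : ℝ) ^ (d - k) * ((d + c).choose (d - k) : ℝ) * Lk c d k =
      2 ^ d * ((d + c).descFactorial (c + k) : ℝ) /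
        (2 ^ k * (k.factorial : ℝ) * ((d + c : ℕ) : ℝ) ^ ((c : ℝ) / 2)) := by
  have h1 : (d + c).choose (d - k) = (d + c).choose (c + k) := by
    rw [← Nat.choose_symm (by omega : c + k ≤ d + c)]
    congr 1
    omega
  have h2 : (((d + c).descFactorial (c + k) : ℕ) : ℝ) =
      ((c + k).factorial : ℝ) * ((d + c).choose (c + k) : ℝ) := by
    rw [Nat.descFactorial_eq_factorial_mul_choose]
    push_cast
    ring
  have h3 : (((c + k).factorial : ℕ) : ℝ) = (k.factorial : ℝ) * ((c + k).descFactorial c : ℝ) := by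
    have h4 := Nat.factorial_mul_descFactorial (Nat.le_add_right c k)
    rw [Nat.add_sub_cancel_left] at h4
    rw [← h4]
    push_cast
    ring
  have h5 : (2 : ℝ) ^ d = 2 ^ (d - k) * 2 ^ k := by
    rw [← pow_add]
    congr 1
    omega
  have hk0 : (k.factorial : ℝ) ≠ 0 := by exact_mod_cast k.factorial_ne_zero
  have hn : (0 : ℝ) < ((d + c : ℕ) : ℝ) := by
    have : 0 < d + c := by omega
    exact_mod_cast this
  have hn2 : ((d + c : ℕ) : ℝ) ^ ((c : ℝ) / 2) ≠ 0 := (Real.rpow_pos_of_pos hn _).ne'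
  unfold Lk
  rw [h1, h2, h3, h5]
  field_simp

/-- the quotient of the maximum and of the power of the argument. -/
theorem main_quot {c : ℕ} (hc : 1 ≤ c) (k : ℕ) :
    Tendsto (fun d : ℕ => ratio c d (d - 1 - k) / Lk c d k) atTop (𝓝 (Kc c)) := by
  have hK := Kc_pos hc
  rw [Metric.tendsto_atTop]
  intro ε hε
  obtain ⟨N₁, μ₁, hμ₁, hU⟩ := top_upper hc (ε := ε / (2 * Kc c)) (by positivity)
  obtain ⟨N₂, μ₂, hμ₂, hL⟩ := top_lower hc (ε := ε / (2 * Kc c)) (by positivity)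
  obtain ⟨N₃, hN₃1, hN₃⟩ := polya_large (δ := μ₁ / (k + 1)) (by positivity)
  obtain ⟨N₄, hN₄1, hN₄⟩ := polya_large (δ := μ₂ / (k + 1)) (by positivity)
  refine ⟨N₁ + N₂ + N₃ + N₄ + k + 1, fun d hd => ?_⟩
  have hdpos : 0 < d := by omega
  have hdR : (0 : ℝ) < d := by exact_mod_cast hdpos
  have hs : 0 < Real.sqrt d := Real.sqrt_pos.2 hdR
  have hk0 : (0 : ℝ) ≤ k := Nat.cast_nonneg k
  have key : ∀ μ : ℝ, 1 / Real.sqrt d ≤ μ / (k + 1) → (k : ℝ) ≤ μ * Real.sqrt d := by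
    intro μ h
    rw [div_le_div_iff₀ hs (by positivity)] at h
    linarith
  have u1 := hU d (by omega) k (key _ (hN₃ d (by omega))) (by omega)
  have u2 := hL d (by omega) k (key _ (hN₄ d (by omega))) (by omega)
  have hl := Lk_pos (c := c) hdpos k
  have e1 : ε / (2 * Kc c) * (Kc c * Lk c d k) = ε / 2 * Lk c d k := by
    field_simp
  rw [Real.dist_eq, abs_lt, lt_sub_iff_add_lt, sub_lt_iff_lt_add, lt_div_iff₀ hl, div_lt_iff₀ hl]
  have e2 : 0 < ε / 2 * Lk c d k := by positivity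
  constructor <;> nlinarith

/-- the product of the factors. -/
theorem main_fact (c k : ℕ) :
    Tendsto (fun d : ℕ => ((d + c).descFactorial (c + k) : ℝ) /
      (((d + c : ℕ) : ℝ) ^ ((c : ℝ) / 2) * (d : ℝ) ^ ((k : ℝ) + (c : ℝ) / 2))) atTop (𝓝 1) := by
  have h1 : Tendsto (fun d : ℕ => ((d + c).descFactorial (c + k) : ℝ) /
      ((d + c : ℕ) : ℝ) ^ (c + k)) atTop (𝓝 1) := by
    have hz : ∀ᶠ x : ℕ in atTop, ((x : ℝ) ^ (c + k)) ≠ 0 :=
      eventually_atTop.mpr ⟨1, fun n hn => pow_ne_zero _ (by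
        have : 0 < n := by omega
        exact_mod_cast this.ne')⟩
    have h := (Asymptotics.isEquivalent_iff_tendsto_one hz).1 (isEquivalent_descFactorial (c + k))
    exact h.comp (tendsto_add_atTop_nat c)
  have h2 : Tendsto (fun d : ℕ => (((d + c : ℕ) : ℝ) / d) ^ ((k : ℝ) + (c : ℝ) / 2)) atTop
      (𝓝 1) := by
    have h3 : Tendsto (fun d : ℕ => ((d + c : ℕ) : ℝ) / d) atTop (𝓝 1) := by
      have h4 : Tendsto (fun d : ℕ => 1 + (c : ℝ) / d) atTop (𝓝 (1 + 0)) :=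
        tendsto_const_nhds.add (tendsto_const_div_atTop_nhds_zero_nat (c : ℝ))
      rw [add_zero] at h4
      refine h4.congr' ?_
      filter_upwards [eventually_gt_atTop 0] with d hd
      have hdR : (d : ℝ) ≠ 0 := by exact_mod_cast hd.ne'
      push_cast
      field_simp
    have h4 := h3.rpow_const (p := (k : ℝ) + (c : ℝ) / 2) (Or.inl one_ne_zero)
    rwa [Real.one_rpow] at h4
  have h3 := h1.mul h2
  rw [mul_one] at h3
  refine h3.congr' ?_
  filter_upwards [eventually_gt_atTop 0] with d hd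
  have hdR : (0 : ℝ) < d := by exact_mod_cast hd
  have hn : (0 : ℝ) < ((d + c : ℕ) : ℝ) := by
    have : 0 < d + c := by omega
    exact_mod_cast this
  have e1 : ((d + c : ℕ) : ℝ) ^ (c + k) = ((d + c : ℕ) : ℝ) ^ ((c : ℝ) / 2) *
      ((d + c : ℕ) : ℝ) ^ ((k : ℝ) + (c : ℝ) / 2) := by
    rw [← Real.rpow_natCast, ← Real.rpow_add hn]
    congr 1
    push_cast
    ring
  have p1 := Real.rpow_pos_of_pos hn ((c : ℝ) / 2)
  have p2 := Real.rpow_pos_of_pos hn ((k : ℝ) + (c : ℝ) / 2)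
  have p3 := Real.rpow_pos_of_pos hdR ((k : ℝ) + (c : ℝ) / 2)
  rw [e1, Real.div_rpow hn.le hdR.le]
  field_simp

/-- the faces of dimension `d - 1 - k`, `k` fixed. PROOF: `top_upper`, `top_lower`; `2 ^ (d-k) C(n, d-k) Lk = 2 ^ (d-k) (n)_m / (k! n^(c/2))`. -/
theorem top_faces {c : ℕ} (hc : 1 ≤ c) (k : ℕ) :
    Tendsto (fun d : ℕ => (maxFaces (d - 1 - k) d (d + c) : ℝ) /
      (2 ^ d * (d : ℝ) ^ ((k : ℝ) + (c : ℝ) / 2))) atTop
      (𝓝 (Kc c / (2 ^ k * (k.factorial : ℝ)))) := by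
  have h1 := ((main_quot hc k).mul (main_fact c k)).mul_const (1 / (2 ^ k * (k.factorial : ℝ)))
  rw [mul_one, mul_one_div] at h1
  refine h1.congr' ?_
  filter_upwards [eventually_gt_atTop k] with d hd
  have hdpos : 0 < d := by omega
  have hdR : (0 : ℝ) < d := by exact_mod_cast hdpos
  have hn : (0 : ℝ) < ((d + c : ℕ) : ℝ) := by
    have : 0 < d + c := by omega
    exact_mod_cast this
  have hl := Lk_pos (c := c) hdpos k
  have hb := main_binom (c := c) hd
  have e1 : d - 1 - k + 1 = d - k := by omega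
  have hC : (0 : ℝ) < ((d + c).choose (d - k) : ℝ) := by
    exact_mod_cast Nat.choose_pos (by omega)
  have hk0 : (0 : ℝ) < (k.factorial : ℝ) := by exact_mod_cast k.factorial_pos
  have p1 := Real.rpow_pos_of_pos hn ((c : ℝ) / 2)
  have p3 := Real.rpow_pos_of_pos hdR ((k : ℝ) + (c : ℝ) / 2)
  unfold ratio
  rw [e1]
  obtain ⟨M, hM⟩ : ∃ M : ℝ, M = (maxFaces (d - 1 - k) d (d + c) : ℝ) := ⟨_, rfl⟩
  rw [← hM]
  obtain ⟨D, hD⟩ : ∃ D : ℝ, D = ((d + c).descFactorial (c + k) : ℝ) := ⟨_, rfl⟩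
  rw [← hD] at hb ⊢
  have e2 : M / (2 ^ (d - k) * ((d + c).choose (d - k) : ℝ)) / Lk c d k =
      M / (2 ^ (d - k) * ((d + c).choose (d - k) : ℝ) * Lk c d k) := by
    rw [div_div]
  have hD0 : 0 < D := by
    rw [hD]
    have : 0 < (d + c).descFactorial (c + k) := Nat.descFactorial_pos.2 (by omega)
    exact_mod_cast this
  rw [e2, hb]
  field_simp

end Pool.Agent.H.MP_4bcbbd_co.K
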