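import Pool.Agent.H.MP_4bcbbd_co.X.Top
import Pool.Agent.H.MP_4bcbbd_co.LP

/-!
MP_4bcbbd_co, theorem H: consequences of the Dehn-Sommerville equations. For a simplicial polytope of dimension `d` the numbers
`f_{d-1-k} / C(d/2, k)`, `0 ≤ k ≤ d/2`, do not decrease, and they are `convex`.
-/

set_option autoImplicit false

namespace Pool.Agent.H.MP_4bcbbd_co.K

open scoped BigOperators

/-- `∏_{l < k} (d - 2 l)`. -/
noncomputable def Pd (d k : ℕ) : ℝ := ∏ l ∈ Finset.range k, ((d : ℝ) - 2 * l)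

/-- `C(j, k) / C(d/2, k)`. -/
noncomputable def Rk (d k j : ℕ) : ℝ :=
  ∏ l ∈ Finset.range k, ((2 * (j : ℝ) - 2 * l) / ((d : ℝ) - 2 * l))

/-- the mean of the values at `j` and `d - j`. -/
noncomputable def Sk (d k j : ℕ) : ℝ := (Rk d k j + Rk d k (d - j)) / 2

/-- the normalised number of the faces with `d - k` vertices: `f_{d-1-k} / C(d/2, k)`. -/
noncomputable def Fk {d : ℕ} (V : Finset (E d)) (k : ℕ) : ℝ :=
  ((fc V (d - k)).card : ℝ) * (2 ^ k * (k.factorial : ℝ)) / Pd d k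

theorem simple_fac {d k l : ℕ} (h : 2 * k ≤ d + 1) (hl : l < k) : 0 < (d : ℝ) - 2 * l := by
  have h1 : 2 * l + 1 ≤ d := by omega
  have h2 : (2 * (l : ℝ) + 1) ≤ d := by exact_mod_cast h1
  linarith

theorem Pd_pos {d k : ℕ} (h : 2 * k ≤ d + 1) : 0 < Pd d k :=
  Finset.prod_pos fun _ hl => simple_fac h (Finset.mem_range.1 hl)

theorem simple_desc (j k : ℕ) :
    ∏ l ∈ Finset.range k, (2 * (j : ℝ) - 2 * l) = 2 ^ k * (k.factorial : ℝ) * (j.choose k : ℝ) := by
  have h1 : (j.descFactorial k : ℝ) = (k.factorial : ℝ) * (j.choose k : ℝ) := by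
    rw [Nat.descFactorial_eq_factorial_mul_choose]
    push_cast
    ring
  have h2 : ∀ k : ℕ, ∏ l ∈ Finset.range k, (2 * (j : ℝ) - 2 * l) = 2 ^ k * (j.descFactorial k : ℝ) := by
    intro k
    induction k with
    | zero => simp
    | succ k ih =>
      rw [Finset.prod_range_succ, ih, Nat.descFactorial_succ]
      push_cast
      by_cases hk : k ≤ j
      · rw [Nat.cast_sub hk]
        ring
      · have h3 : j.descFactorial k = 0 := Nat.descFactorial_eq_zero_iff_lt.2 (by omega)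
        rw [h3]
        simp
  rw [h2, h1]
  ring

theorem Rk_choose {d k : ℕ} (_h : 2 * k ≤ d + 1) (j : ℕ) :
    Rk d k j = 2 ^ k * (k.factorial : ℝ) * (j.choose k : ℝ) / Pd d k := by
  unfold Rk Pd
  rw [Finset.prod_div_distrib, simple_desc]

theorem simple_nonneg {d k : ℕ} (h : 2 * k ≤ d + 1) (j : ℕ) : 0 ≤ Rk d k j := by
  rw [Rk_choose h]
  have := Pd_pos h
  positivity

theorem simple_mono {d k : ℕ} (h : 2 * k ≤ d + 1) {i j : ℕ} (hij : i ≤ j) :
    Rk d k i ≤ Rk d k j := by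
  rw [Rk_choose h, Rk_choose h]
  refine div_le_div_of_nonneg_right ?_ (Pd_pos h).le
  refine mul_le_mul_of_nonneg_left ?_ (by positivity)
  exact_mod_cast Nat.choose_le_choose k hij

theorem simple_succ (d k j : ℕ) :
    Rk d (k + 1) j = Rk d k j * ((2 * (j : ℝ) - 2 * k) / ((d : ℝ) - 2 * k)) := by
  unfold Rk
  rw [Finset.prod_range_succ]

/-- the difference of the values at `j` and `d - j`. -/
noncomputable def Tk (d k j : ℕ) : ℝ := Rk d k j - Rk d k (d - j)

theorem simple_Rzero (d j : ℕ) : Rk d 0 j = 1 := by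
  unfold Rk
  simp

theorem simple_Szero (d j : ℕ) : Sk d 0 j = 1 := by
  unfold Sk
  rw [simple_Rzero, simple_Rzero]
  norm_num

theorem simple_Tzero (d j : ℕ) : Tk d 0 j = 0 := by
  unfold Tk
  rw [simple_Rzero, simple_Rzero]
  norm_num

theorem simple_symm {d j : ℕ} (hj : j ≤ d) (k : ℕ) : Sk d k (d - j) = Sk d k j := by
  unfold Sk
  rw [Nat.sub_sub_self hj]
  ring

theorem simple_Ssucc {d j : ℕ} (hj : j ≤ d) {k : ℕ} (h : 2 * (k + 1) ≤ d + 1) :
    Sk d (k + 1) j - Sk d k j = (2 * (j : ℝ) - d) / ((d : ℝ) - 2 * k) * Tk d k j / 2 := by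
  have h1 := simple_fac h (Nat.lt_succ_self k)
  unfold Sk Tk
  rw [simple_succ, simple_succ, Nat.cast_sub hj]
  field_simp
  ring

theorem simple_Tsucc {d j : ℕ} (hj : j ≤ d) {k : ℕ} (h : 2 * (k + 1) ≤ d + 1) :
    Tk d (k + 1) j - Tk d k j = 2 * ((2 * (j : ℝ) - d) / ((d : ℝ) - 2 * k)) * Sk d k j := by
  have h1 := simple_fac h (Nat.lt_succ_self k)
  unfold Sk Tk
  rw [simple_succ, simple_succ, Nat.cast_sub hj]
  field_simp
  ring

/-- the case `d ≤ 2 j`. -/
theorem simple_Tnonneg {d j k : ℕ} (hj2 : d ≤ 2 * j) (h : 2 * k ≤ d + 1) : 0 ≤ Tk d k j := by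
  unfold Tk
  have := simple_mono h (show d - j ≤ j by omega)
  linarith

theorem simple_Snonneg {d j k : ℕ} (h : 2 * k ≤ d + 1) : 0 ≤ Sk d k j := by
  unfold Sk
  have h1 := simple_nonneg h j
  have h2 := simple_nonneg h (d - j)
  linarith

theorem simple_step {d j : ℕ} (hj : j ≤ d) (hj2 : d ≤ 2 * j) {k : ℕ} (h : 2 * (k + 1) ≤ d + 1) :
    Sk d k j ≤ Sk d (k + 1) j := by
  have h1 := simple_fac h (Nat.lt_succ_self k)
  have h2 := simple_Ssucc hj h
  have h3 : 0 ≤ Tk d k j := simple_Tnonneg hj2 (by omega)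
  have h4 : (0 : ℝ) ≤ 2 * (j : ℝ) - d := by
    have : (d : ℝ) ≤ 2 * j := by exact_mod_cast hj2
    linarith
  have h5 : 0 ≤ (2 * (j : ℝ) - d) / ((d : ℝ) - 2 * k) * Tk d k j / 2 := by positivity
  linarith

theorem simple_mono_aux {d j : ℕ} (hj : j ≤ d) (hj2 : d ≤ 2 * j) {k : ℕ} (n : ℕ)
    (h : 2 * (k + n) ≤ d + 1) : Sk d k j ≤ Sk d (k + n) j := by
  induction n with
  | zero => exact le_rfl
  | succ n ih => exact (ih (by omega)).trans (simple_step hj hj2 (by omega))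

/-- reduction to `d ≤ 2 j`. -/
theorem simple_wlog {d : ℕ} {p : ℕ → Prop} (hp : ∀ j ≤ d, p (d - j) → p j)
    (h : ∀ j ≤ d, d ≤ 2 * j → p j) : ∀ j ≤ d, p j := by
  intro j hj
  by_cases h2 : d ≤ 2 * j
  · exact h j hj h2
  · exact hp j hj (h (d - j) (Nat.sub_le d j) (by omega))

theorem Sk_mono {d j : ℕ} (hj : j ≤ d) {k k' : ℕ} (hk : k ≤ k') (h : 2 * k' ≤ d + 1) :
    Sk d k j ≤ Sk d k' j := by
  refine simple_wlog (p := fun j => Sk d k j ≤ Sk d k' j) (fun j hj h1 => ?_)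
    (fun j hj hj2 => ?_) j hj
  · have h1' : Sk d k (d - j) ≤ Sk d k' (d - j) := h1
    rwa [simple_symm hj, simple_symm hj] at h1'
  · obtain ⟨n, rfl⟩ := Nat.exists_eq_add_of_le hk
    exact simple_mono_aux hj hj2 n h

/-- `k T_{k+1} ≥ (k+1) T_k`. -/
theorem simple_Tconv {d j : ℕ} (hj : j ≤ d) (hj2 : d ≤ 2 * j) : ∀ {k : ℕ}, 2 * (k + 1) ≤ d + 1 →
    ((k : ℝ) + 1) * Tk d k j ≤ (k : ℝ) * Tk d (k + 1) j := by
  have h4 : (0 : ℝ) ≤ 2 * (j : ℝ) - d := by
    have : (d : ℝ) ≤ 2 * j := by exact_mod_cast hj2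
    linarith
  -- `T_k ≤ k D_k`, `D_k = T_{k+1} - T_k` does not decrease
  have hD : ∀ k : ℕ, 2 * (k + 1) ≤ d + 1 → Tk d k j ≤ (k : ℝ) * (Tk d (k + 1) j - Tk d k j) := by
    intro k
    induction k with
    | zero =>
      intro _
      rw [simple_Tzero]
      simp
    | succ k ih =>
      intro h
      have h1 := ih (by omega)
      have e1 := simple_Tsucc hj (k := k) (by omega)
      have e2 := simple_Tsucc hj (k := k + 1) h
      have f1 := simple_fac h (show k < k + 1 + 1 by omega)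
      have f2 := simple_fac h (Nat.lt_succ_self (k + 1))
      have hS : Sk d k j ≤ Sk d (k + 1) j := simple_step hj hj2 (by omega)
      have hS0 : 0 ≤ Sk d k j := simple_Snonneg (by omega)
      have hfrac : (2 * (j : ℝ) - d) / ((d : ℝ) - 2 * k) ≤
          (2 * (j : ℝ) - d) / ((d : ℝ) - 2 * (k + 1 : ℕ)) := by
        refine div_le_div_of_nonneg_left h4 f2 ?_
        push_cast
        linarith
      have hfrac0 : 0 ≤ (2 * (j : ℝ) - d) / ((d : ℝ) - 2 * k) := by positivity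
      have hD2 : Tk d (k + 1) j - Tk d k j ≤ Tk d (k + 1 + 1) j - Tk d (k + 1) j := by
        rw [e1, e2]
        have g1 : 2 * ((2 * (j : ℝ) - d) / ((d : ℝ) - 2 * k)) * Sk d k j ≤
            2 * ((2 * (j : ℝ) - d) / ((d : ℝ) - 2 * k)) * Sk d (k + 1) j :=
          mul_le_mul_of_nonneg_left hS (by positivity)
        have g2 : 2 * ((2 * (j : ℝ) - d) / ((d : ℝ) - 2 * k)) * Sk d (k + 1) j ≤
            2 * ((2 * (j : ℝ) - d) / ((d : ℝ) - 2 * (k + 1 : ℕ))) * Sk d (k + 1) j :=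
          mul_le_mul_of_nonneg_right (by linarith) (hS0.trans hS)
        exact g1.trans g2
      push_cast
      have hk0 : (0 : ℝ) ≤ (k : ℝ) + 1 := by positivity
      nlinarith [mul_le_mul_of_nonneg_left hD2 hk0]
  intro k h
  have h1 := hD k h
  linarith

/-- the increments `D_k = S_{k+1} - S_k` satisfy `(k+1) D_k ≤ k D_{k+1}`. -/
theorem simple_Dconv {d j : ℕ} (hj : j ≤ d) (hj2 : d ≤ 2 * j) {k : ℕ} (h : 2 * (k + 2) ≤ d + 1) :
    ((k : ℝ) + 1) * (Sk d (k + 1) j - Sk d k j) ≤ (k : ℝ) * (Sk d (k + 2) j - Sk d (k + 1) j) := by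
  have h4 : (0 : ℝ) ≤ 2 * (j : ℝ) - d := by
    have : (d : ℝ) ≤ 2 * j := by exact_mod_cast hj2
    linarith
  have f1 := simple_fac h (show k < k + 2 by omega)
  have f2 := simple_fac h (show k + 1 < k + 2 by omega)
  rw [simple_Ssucc hj (k := k) (by omega), simple_Ssucc hj (k := k + 1) (by omega)]
  have hT := simple_Tconv hj hj2 (k := k) (by omega)
  have hT0 : 0 ≤ Tk d (k + 1) j := simple_Tnonneg hj2 (by omega)
  have hfrac : (2 * (j : ℝ) - d) / ((d : ℝ) - 2 * k) ≤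
      (2 * (j : ℝ) - d) / ((d : ℝ) - 2 * (k + 1 : ℕ)) := by
    refine div_le_div_of_nonneg_left h4 f2 ?_
    push_cast
    linarith
  have hfrac0 : 0 ≤ (2 * (j : ℝ) - d) / ((d : ℝ) - 2 * k) := by positivity
  have hk0 : (0 : ℝ) ≤ (k : ℝ) := by positivity
  calc ((k : ℝ) + 1) * ((2 * (j : ℝ) - d) / ((d : ℝ) - 2 * k) * Tk d k j / 2)
      = (2 * (j : ℝ) - d) / ((d : ℝ) - 2 * k) / 2 * (((k : ℝ) + 1) * Tk d k j) := by ring
    _ ≤ (2 * (j : ℝ) - d) / ((d : ℝ) - 2 * k) / 2 * ((k : ℝ) * Tk d (k + 1) j) :=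
        mul_le_mul_of_nonneg_left hT (by positivity)
    _ ≤ (2 * (j : ℝ) - d) / ((d : ℝ) - 2 * (k + 1 : ℕ)) / 2 * ((k : ℝ) * Tk d (k + 1) j) :=
        mul_le_mul_of_nonneg_right (by linarith) (by positivity)
    _ = (k : ℝ) * ((2 * (j : ℝ) - d) / ((d : ℝ) - 2 * (k + 1 : ℕ)) * Tk d (k + 1) j / 2) := by ring

/-- `(k + 1) (S_k - 1) ≤ (k - 1) (S_{k+1} - 1)`, from `2 (S_k - 1) ≤ (k - 1) D_k`. -/
theorem simple_Sconv {d j : ℕ} (hj : j ≤ d) (hj2 : d ≤ 2 * j) : ∀ k : ℕ, 2 * (k + 2) ≤ d + 1 →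
    2 * (Sk d (k + 1) j - 1) ≤ (k : ℝ) * (Sk d (k + 2) j - Sk d (k + 1) j) := by
  intro k
  induction k with
  | zero =>
    intro h
    have e1 := simple_Ssucc hj (k := 0) (by omega)
    rw [simple_Tzero, simple_Szero] at e1
    have : Sk d 1 j = 1 := by
      have e2 : Sk d (0 + 1) j - 1 = 0 := by rw [e1]; ring
      have e3 : Sk d (0 + 1) j = Sk d 1 j := rfl
      linarith
    rw [show (0 : ℕ) + 1 = 1 from rfl, this]
    simp
  | succ k ih =>
    intro h
    have h1 := ih (by omega)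
    have h2 := simple_Dconv hj hj2 (k := k + 1) (by omega)
    have e : Sk d (k + 1 + 1) j = Sk d (k + 2) j := rfl
    have e' : Sk d (k + 1 + 2) j = Sk d (k + 3) j := rfl
    rw [e, e']
    rw [e, e'] at h2
    push_cast at h2 ⊢
    nlinarith

theorem simple_conv_aux {d j : ℕ} (hj : j ≤ d) (hj2 : d ≤ 2 * j) {k : ℕ} (n : ℕ)
    (h : 2 * (k + 1 + n) ≤ d + 1) :
    ((k : ℝ) + 1 + n) * ((k : ℝ) + n) * (Sk d (k + 1) j - 1) ≤
      ((k : ℝ) + 1) * k * (Sk d (k + 1 + n) j - 1) := by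
  induction n with
  | zero => simp
  | succ n ih =>
    have h1 := ih (by omega)
    have h2 := simple_Sconv hj hj2 (k + n) (by omega)
    have e1 : Sk d (k + n + 1) j = Sk d (k + 1 + n) j := by congr 1; omega
    have e2 : Sk d (k + n + 2) j = Sk d (k + 1 + (n + 1)) j := by congr 1; omega
    rw [e1, e2] at h2
    push_cast at h2 ⊢
    have hS1 : 1 ≤ Sk d (k + 1 + n) j := by
      have := simple_mono_aux hj hj2 (k := 0) (k + 1 + n) (by omega)
      rw [simple_Szero] at this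
      have e3 : Sk d (0 + (k + 1 + n)) j = Sk d (k + 1 + n) j := by congr 1; omega
      linarith
    -- `(a + 2) (S_a - 1) ≤ a (S_{a+1} - 1)` with `a = k + n`
    have h3 : ((k : ℝ) + n + 2) * (Sk d (k + 1 + n) j - 1) ≤
        ((k : ℝ) + n) * (Sk d (k + 1 + (n + 1)) j - 1) := by linarith
    have hkn : (0 : ℝ) ≤ (k : ℝ) + n := by positivity
    rcases hkn.eq_or_lt with h0 | h0
    · have hk : (k : ℝ) = 0 := by
        have a1 : (0 : ℝ) ≤ (k : ℝ) := by positivity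
        have a2 : (0 : ℝ) ≤ (n : ℝ) := by positivity
        linarith
      have hn : (n : ℝ) = 0 := by linarith
      have hk' : k = 0 := by exact_mod_cast hk
      have hn' : n = 0 := by exact_mod_cast hn
      subst hk'
      subst hn'
      have e4 : Sk d (0 + 1) j = 1 := by
        have e5 := simple_Ssucc hj (k := 0) (by omega)
        rw [simple_Tzero, simple_Szero] at e5
        linarith
      rw [e4]
      simp
    · have h5 : ((k : ℝ) + 1) * k * (((k : ℝ) + n + 2) * (Sk d (k + 1 + n) j - 1)) ≤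
          ((k : ℝ) + 1) * k * (((k : ℝ) + n) * (Sk d (k + 1 + (n + 1)) j - 1)) :=
        mul_le_mul_of_nonneg_left h3 (by positivity)
      have h6 : ((k : ℝ) + n + 2) * (((k : ℝ) + 1 + n) * ((k : ℝ) + n) * (Sk d (k + 1) j - 1)) ≤
          ((k : ℝ) + n + 2) * (((k : ℝ) + 1) * k * (Sk d (k + 1 + n) j - 1)) :=
        mul_le_mul_of_nonneg_left h1 (by positivity)
      have h7 : ((k : ℝ) + n) * (((k : ℝ) + 1 + (n + 1)) * ((k : ℝ) + (n + 1)) *
          (Sk d (k + 1) j - 1)) ≤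
          ((k : ℝ) + n) * (((k : ℝ) + 1) * k * (Sk d (k + 1 + (n + 1)) j - 1)) := by
        calc ((k : ℝ) + n) * (((k : ℝ) + 1 + (n + 1)) * ((k : ℝ) + (n + 1)) *
            (Sk d (k + 1) j - 1))
            = ((k : ℝ) + n + 2) * (((k : ℝ) + 1 + n) * ((k : ℝ) + n) *
              (Sk d (k + 1) j - 1)) := by ring
          _ ≤ ((k : ℝ) + n + 2) * (((k : ℝ) + 1) * k * (Sk d (k + 1 + n) j - 1)) := h6
          _ = ((k : ℝ) + 1) * k * (((k : ℝ) + n + 2) * (Sk d (k + 1 + n) j - 1)) := by ring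
          _ ≤ _ := h5
          _ = _ := by ring
      exact le_of_mul_le_mul_left h7 h0

/-- PROOF: `S_{k+1} - S_k = a T_k / (2 (d - 2k))`, `T_{k+1} - T_k = 2 a S_k / (d - 2k)` with `a = |2j - d|`, `T_k = |R_k(j) - R_k(d-j)|`, so
`(S_{k+1} - S_k) / k` does not decrease. -/
theorem Sk_conv {d j : ℕ} (hj : j ≤ d) {k k' : ℕ} (hk : k ≤ k') (hk' : 1 ≤ k')
    (h : 2 * k' ≤ d + 1) : Sk d k j - 1 ≤ ((k : ℝ) / k') ^ 2 * Sk d k' j := by
  refine simple_wlog (p := fun j => Sk d k j - 1 ≤ ((k : ℝ) / k') ^ 2 * Sk d k' j)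
    (fun j hj h1 => ?_) (fun j hj hj2 => ?_) j hj
  · have h1' : Sk d k (d - j) - 1 ≤ ((k : ℝ) / k') ^ 2 * Sk d k' (d - j) := h1
    rwa [simple_symm hj, simple_symm hj] at h1'
  · rcases Nat.eq_zero_or_pos k with rfl | hk0
    · rw [simple_Szero]
      have := simple_Snonneg (j := j) h
      have h0 : (0 : ℝ) ≤ (((0 : ℕ) : ℝ) / k') ^ 2 * Sk d k' j := by positivity
      linarith
    · obtain ⟨a, rfl⟩ : ∃ a, k = a + 1 := ⟨k - 1, by omega⟩
      obtain ⟨n, rfl⟩ := Nat.exists_eq_add_of_le hk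
      have h1 := simple_conv_aux hj hj2 (k := a) n h
      have hS1 : 1 ≤ Sk d (a + 1 + n) j := by
        have := simple_mono_aux hj hj2 (k := 0) (a + 1 + n) (by omega)
        rw [simple_Szero] at this
        have e3 : Sk d (0 + (a + 1 + n)) j = Sk d (a + 1 + n) j := by congr 1; omega
        linarith
      have hS2 : 1 ≤ Sk d (a + 1) j := by
        have := simple_mono_aux hj hj2 (k := 0) (a + 1) (by omega)
        rw [simple_Szero] at this
        have e3 : Sk d (0 + (a + 1)) j = Sk d (a + 1) j := by congr 1; omega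
        linarith
      push_cast
      rcases Nat.eq_zero_or_pos (a + n) with h0 | h0
      · have ha : a = 0 := by omega
        have hn : n = 0 := by omega
        subst ha
        subst hn
        have e5 := simple_Ssucc hj (k := 0) (by omega)
        rw [simple_Tzero, simple_Szero] at e5
        have e6 : Sk d (0 + 1) j = 1 := by linarith
        rw [e6]
        have : (0 : ℝ) ≤ ((((0 : ℕ) : ℝ) + 1) / (((0 : ℕ) : ℝ) + 1 + ((0 : ℕ) : ℝ))) ^ 2 *
            Sk d (0 + 1 + 0) j := by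
          have := simple_Snonneg (j := j) h
          positivity
        linarith
      · have h0' : (0 : ℝ) < (a : ℝ) + n := by exact_mod_cast h0
        have hden : (0 : ℝ) < (a : ℝ) + 1 + n := by positivity
        -- `S_k - 1 ≤ k (k-1) / (k' (k'-1)) (S_k' - 1)`
        have h2 : Sk d (a + 1) j - 1 ≤ ((a : ℝ) + 1) * a / (((a : ℝ) + 1 + n) * ((a : ℝ) + n)) *
            (Sk d (a + 1 + n) j - 1) := by
          rw [div_mul_eq_mul_div, le_div_iff₀ (by positivity)]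
          linarith
        have h3 : ((a : ℝ) + 1) * a / (((a : ℝ) + 1 + n) * ((a : ℝ) + n)) ≤
            (((a : ℝ) + 1) / ((a : ℝ) + 1 + n)) ^ 2 := by
          rw [div_pow, div_le_div_iff₀ (by positivity) (by positivity)]
          have hn0 : (0 : ℝ) ≤ (n : ℝ) := by positivity
          have ha0 : (0 : ℝ) ≤ (a : ℝ) := by positivity
          have : (a : ℝ) * ((a : ℝ) + 1 + n) ≤ ((a : ℝ) + 1) * ((a : ℝ) + n) := by nlinarith
          calc ((a : ℝ) + 1) * a * ((a : ℝ) + 1 + n) ^ 2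
              = ((a : ℝ) + 1) * ((a : ℝ) + 1 + n) * (a * ((a : ℝ) + 1 + n)) := by ring
            _ ≤ ((a : ℝ) + 1) * ((a : ℝ) + 1 + n) * (((a : ℝ) + 1) * ((a : ℝ) + n)) :=
                mul_le_mul_of_nonneg_left this (by positivity)
            _ = ((a : ℝ) + 1) ^ 2 * (((a : ℝ) + 1 + n) * ((a : ℝ) + n)) := by ring
        calc Sk d (a + 1) j - 1 ≤ ((a : ℝ) + 1) * a / (((a : ℝ) + 1 + n) * ((a : ℝ) + n)) *
              (Sk d (a + 1 + n) j - 1) := h2
          _ ≤ (((a : ℝ) + 1) / ((a : ℝ) + 1 + n)) ^ 2 * (Sk d (a + 1 + n) j - 1) :=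
              mul_le_mul_of_nonneg_right h3 (by linarith)
          _ ≤ (((a : ℝ) + 1) / ((a : ℝ) + 1 + n)) ^ 2 * Sk d (a + 1 + n) j :=
              mul_le_mul_of_nonneg_left (by linarith) (by positivity)

/-- the normalised face numbers in terms of the numbers `gnum`. -/
theorem simple_Fk {d : ℕ} {V : Finset (E d)} (hV : CSData V) (hS : Simp V) {z : E d}
    (hz : Generic V z) {k : ℕ} (h : 2 * k ≤ d + 1) (hkd : k ≤ d) :
    Fk V k = ∑ j ∈ Finset.range (d + 1), (X.gnum V z j : ℝ) * Sk d k j := by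
  have h1 := X.fc_eq_sum_gnum hV hS hz (j := d - k) (Nat.sub_le d k)
  rw [Nat.sub_sub_self hkd] at h1
  have h2 : Fk V k = ∑ j ∈ Finset.range (d + 1), (X.gnum V z j : ℝ) * Rk d k j := by
    unfold Fk
    rw [h1]
    push_cast
    rw [Finset.sum_mul, Finset.sum_div]
    refine Finset.sum_congr rfl fun j _ => ?_
    rw [Rk_choose h]
    ring
  have h3 : Fk V k = ∑ j ∈ Finset.range (d + 1), (X.gnum V z j : ℝ) * Rk d k (d - j) := by
    rw [h2, ← Finset.sum_range_reflect]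
    refine Finset.sum_congr rfl fun j hj => ?_
    have hj' : j ≤ d := by
      have := Finset.mem_range.1 hj
      omega
    have e : d + 1 - 1 - j = d - j := by omega
    rw [e, X.gnum_symm hV hS hz hj']
  have h4 : Fk V k = (Fk V k + Fk V k) / 2 := by ring
  rw [h4]
  nth_rewrite 1 [h2]
  rw [h3, ← Finset.sum_add_distrib, Finset.sum_div]
  refine Finset.sum_congr rfl fun j _ => ?_
  unfold Sk
  ring

theorem Fk_mono {d : ℕ} {V : Finset (E d)} (hV : CSData V) (hS : Simp V) {k k' : ℕ}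
    (hk : k ≤ k') (h : 2 * k' ≤ d + 1) : Fk V k ≤ Fk V k' := by
  obtain ⟨z, hz⟩ := exists_generic V
  by_cases hd : k' ≤ d
  · rw [simple_Fk hV hS hz (k := k) (by omega) (by omega), simple_Fk hV hS hz h hd]
    refine Finset.sum_le_sum fun j hj => ?_
    refine mul_le_mul_of_nonneg_left ?_ (by positivity)
    refine Sk_mono ?_ hk h
    have := Finset.mem_range.1 hj
    omega
  · omega

theorem Fk_conv {d : ℕ} {V : Finset (E d)} (hV : CSData V) (hS : Simp V) {k k' : ℕ}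
    (hk : k ≤ k') (hk' : 1 ≤ k') (h : 2 * k' ≤ d + 1) :
    Fk V k - Fk V 0 ≤ ((k : ℝ) / k') ^ 2 * Fk V k' := by
  obtain ⟨z, hz⟩ := exists_generic V
  have hd : k' ≤ d := by omega
  rw [simple_Fk hV hS hz (k := k) (by omega) (by omega), simple_Fk hV hS hz h hd,
    simple_Fk hV hS hz (k := 0) (by omega) (by omega), ← Finset.sum_sub_distrib, Finset.mul_sum]
  refine Finset.sum_le_sum fun j hj => ?_
  have hj' : j ≤ d := by
    have := Finset.mem_range.1 hj
    omega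
  have h1 := Sk_conv hj' hk hk' h
  rw [simple_Szero, ← mul_sub]
  calc (X.gnum V z j : ℝ) * (Sk d k j - 1)
      ≤ (X.gnum V z j : ℝ) * (((k : ℝ) / k') ^ 2 * Sk d k' j) :=
        mul_le_mul_of_nonneg_left h1 (by positivity)
    _ = ((k : ℝ) / k') ^ 2 * ((X.gnum V z j : ℝ) * Sk d k' j) := by ring

end Pool.Agent.H.MP_4bcbbd_co.K
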