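import Pool.Agent.H.MP_4bcbbd_co.h39h.TopL

/-!
MP_4bcbbd_co, theorem H: the top faces, upper bound.
-/

set_option autoImplicit false

namespace Pool.Agent.H.MP_4bcbbd_co.K

open scoped BigOperators
open Pool.Agent.H.MP_4bcbbd_co.F

/-- the value at the index `a`. -/
theorem topu_value {c d a : ℕ} (hc : 1 ≤ c) (hd : 0 < d) {η μ r : ℝ} (hη : 0 < η)
    (hμ : 0 < μ) (ha2 : μ * Real.sqrt d < a + 1) (hcd : (c : ℝ) ^ 2 / d ≤ η)
    (hr : r ≤ Kc c * (((a : ℝ) + 1) / Real.sqrt d) ^ c + η * (Kc c * μ ^ c)) :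
    r / Lk c d a ≤ Kc c * (1 + η) * Real.exp η := by
  have hdR : (0 : ℝ) < d := by exact_mod_cast hd
  have hs : 0 < Real.sqrt d := Real.sqrt_pos.2 hdR
  have hK := Kc_pos hc
  have hL0 := Lk_pos (c := c) hd a
  have hnR : (0 : ℝ) < ((d + c : ℕ) : ℝ) := by
    exact_mod_cast (by omega : 0 < d + c)
  have hn : 0 < Real.sqrt ((d + c : ℕ) : ℝ) := Real.sqrt_pos.2 hnR
  obtain ⟨x, hx⟩ : ∃ x : ℝ, x = ((a : ℝ) + 1) / Real.sqrt d := ⟨_, rfl⟩
  have hx0 : 0 < x := by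
    rw [hx]
    positivity
  have hμx : μ ≤ x := by
    rw [hx, le_div_iff₀ hs]
    exact ha2.le
  have h1 : r ≤ Kc c * (1 + η) * x ^ c := by
    have h2 : μ ^ c ≤ x ^ c := pow_le_pow_left₀ hμ.le hμx c
    have h3 : η * (Kc c * μ ^ c) ≤ η * (Kc c * x ^ c) :=
      mul_le_mul_of_nonneg_left (mul_le_mul_of_nonneg_left h2 hK.le) hη.le
    rw [← hx] at hr
    calc r ≤ Kc c * x ^ c + η * (Kc c * μ ^ c) := hr
      _ ≤ Kc c * x ^ c + η * (Kc c * x ^ c) := by linarith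
      _ = Kc c * (1 + η) * x ^ c := by ring
  -- `√(d + c) ≤ √d · exp (c / d)`
  have h4 : Real.sqrt ((d + c : ℕ) : ℝ) ≤ Real.sqrt d * Real.exp ((c : ℝ) / d) := by
    rw [Real.sqrt_le_left (by positivity), mul_pow, Real.sq_sqrt hdR.le]
    have h5 : ((d + c : ℕ) : ℝ) = d * ((c : ℝ) / d + 1) := by
      push_cast
      field_simp
      ring
    have h6 : (1 : ℝ) ≤ Real.exp ((c : ℝ) / d) := Real.one_le_exp (by positivity)
    have h7 : (c : ℝ) / d + 1 ≤ Real.exp ((c : ℝ) / d) := Real.add_one_le_exp _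
    rw [h5]
    refine mul_le_mul_of_nonneg_left ?_ hdR.le
    nlinarith
  have h8 : x ^ c ≤ Lk c d a * Real.exp η := by
    have h9 : x ≤ ((a : ℝ) + 1) / Real.sqrt ((d + c : ℕ) : ℝ) * Real.exp ((c : ℝ) / d) := by
      rw [hx, div_mul_eq_mul_div, div_le_div_iff₀ hs hn]
      have h10 : (0 : ℝ) ≤ (a : ℝ) + 1 := by positivity
      calc ((a : ℝ) + 1) * Real.sqrt ((d + c : ℕ) : ℝ)
          ≤ ((a : ℝ) + 1) * (Real.sqrt d * Real.exp ((c : ℝ) / d)) :=
            mul_le_mul_of_nonneg_left h4 h10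
        _ = ((a : ℝ) + 1) * Real.exp ((c : ℝ) / d) * Real.sqrt d := by ring
    calc x ^ c ≤ (((a : ℝ) + 1) / Real.sqrt ((d + c : ℕ) : ℝ) * Real.exp ((c : ℝ) / d)) ^ c :=
          pow_le_pow_left₀ hx0.le h9 c
      _ = (((a : ℝ) + 1) / Real.sqrt ((d + c : ℕ) : ℝ)) ^ c * Real.exp (c * ((c : ℝ) / d)) := by
          rw [mul_pow, ← Real.exp_nat_mul]
      _ ≤ Lk c d a * Real.exp η := by
          refine mul_le_mul (Lk_bounds hd a).1 (Real.exp_le_exp.2 ?_) (Real.exp_pos _).le hL0.le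
          calc (c : ℝ) * ((c : ℝ) / d) = (c : ℝ) ^ 2 / d := by ring
            _ ≤ η := hcd
  rw [div_le_iff₀ hL0]
  have h11 : 0 ≤ Kc c * (1 + η) := by positivity
  calc r ≤ Kc c * (1 + η) * x ^ c := h1
    _ ≤ Kc c * (1 + η) * (Lk c d a * Real.exp η) := mul_le_mul_of_nonneg_left h8 h11
    _ = Kc c * (1 + η) * Real.exp η * Lk c d a := by ring

/-- the last step. -/
theorem topu_end {c d a k : ℕ} (hc : 1 ≤ c) (hd : 0 < d) {η μ r s : ℝ} (hη : 0 < η)
    (hη1 : η ≤ 1 / 12) (hμ2 : μ ^ 2 ≤ η) (ha : (a : ℝ) ≤ μ * Real.sqrt d) (ha4 : 4 * a ≤ d)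
    (hka : k ≤ a) (hcd : (c : ℝ) ^ 2 / d ≤ η) (hr0 : 0 ≤ r) (hs0 : 0 ≤ s)
    (hs : s / Lk c d a ≤ Kc c * (1 + η) * Real.exp η)
    (h : Ek c d k * (r / Lk c d k) ≤ Ek c d a * (s / Lk c d a)) :
    r ≤ (1 + 6 * η) * (Kc c * Lk c d k) := by
  have hdR : (0 : ℝ) < d := by exact_mod_cast hd
  have hK := Kc_pos hc
  have hLk := Lk_pos (c := c) hd k
  have hLa := Lk_pos (c := c) hd a
  have ha4R : 4 * (a : ℝ) ≤ d := by exact_mod_cast ha4
  have ha0 : (0 : ℝ) ≤ a := Nat.cast_nonneg a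
  have hEa : Ek c d a ≤ Real.exp η := by
    refine (Ek_le (c := c) (d := d) (k := a) (by omega)).trans (Real.exp_le_exp.2 ?_)
    rw [div_le_iff₀ (by linarith)]
    have h1 : (a : ℝ) ^ 2 ≤ μ ^ 2 * d := by
      calc (a : ℝ) ^ 2 ≤ (μ * Real.sqrt d) ^ 2 := pow_le_pow_left₀ ha0 ha 2
        _ = μ ^ 2 * d := by rw [mul_pow, Real.sq_sqrt hdR.le]
    have h2 : μ ^ 2 * d ≤ η * d := mul_le_mul_of_nonneg_right hμ2 hdR.le
    have h3 : η * d ≤ η * (2 * ((d : ℝ) - 2 * a)) := mul_le_mul_of_nonneg_left (by linarith) hη.le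
    linarith
  have hEk : 1 - η ≤ Ek c d k := by
    have := Ek_ge (c := c) hd (show 2 * k ≤ d + 1 by omega)
    linarith
  have hexp : Real.exp η * (1 - η) ≤ 1 := by
    have h8 : 1 - η ≤ Real.exp (-η) := by
      have := Real.add_one_le_exp (-η)
      linarith
    calc Real.exp η * (1 - η) ≤ Real.exp η * Real.exp (-η) :=
          mul_le_mul_of_nonneg_left h8 (Real.exp_pos _).le
      _ = 1 := by rw [← Real.exp_add, add_neg_cancel, Real.exp_zero]
  have hq : 0 ≤ r / Lk c d k := div_nonneg hr0 hLk.le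
  have hp : 0 ≤ s / Lk c d a := div_nonneg hs0 hLa.le
  have h1 : (1 - η) * (r / Lk c d k) ≤ Real.exp η * (Kc c * (1 + η) * Real.exp η) := by
    calc (1 - η) * (r / Lk c d k) ≤ Ek c d k * (r / Lk c d k) :=
          mul_le_mul_of_nonneg_right hEk hq
      _ ≤ Ek c d a * (s / Lk c d a) := h
      _ ≤ Real.exp η * (s / Lk c d a) := mul_le_mul_of_nonneg_right hEa hp
      _ ≤ Real.exp η * (Kc c * (1 + η) * Real.exp η) :=
          mul_le_mul_of_nonneg_left hs (Real.exp_pos _).le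
  have hη2 : 0 ≤ 1 - η := by linarith
  have h2 : (1 - η) * (1 - η) * (1 - η) * (r / Lk c d k) ≤ Kc c * (1 + η) := by
    have h3 : (1 - η) * (1 - η) * ((1 - η) * (r / Lk c d k)) ≤
        (1 - η) * (1 - η) * (Real.exp η * (Kc c * (1 + η) * Real.exp η)) :=
      mul_le_mul_of_nonneg_left h1 (mul_nonneg hη2 hη2)
    have h4 : (Real.exp η * (1 - η)) * (Real.exp η * (1 - η)) ≤ 1 := by
      have h5 : 0 ≤ Real.exp η * (1 - η) := mul_nonneg (Real.exp_pos _).le hη2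
      calc (Real.exp η * (1 - η)) * (Real.exp η * (1 - η)) ≤ 1 * 1 :=
            mul_le_mul hexp hexp h5 zero_le_one
        _ = 1 := one_mul 1
    calc (1 - η) * (1 - η) * (1 - η) * (r / Lk c d k)
        = (1 - η) * (1 - η) * ((1 - η) * (r / Lk c d k)) := by ring
      _ ≤ (1 - η) * (1 - η) * (Real.exp η * (Kc c * (1 + η) * Real.exp η)) := h3
      _ = (Kc c * (1 + η)) * ((Real.exp η * (1 - η)) * (Real.exp η * (1 - η))) := by ring
      _ ≤ (Kc c * (1 + η)) * 1 := mul_le_mul_of_nonneg_left h4 (by positivity)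
      _ = Kc c * (1 + η) := mul_one _
  have h6 : 1 + η ≤ (1 - η) * (1 - η) * (1 - η) * (1 + 6 * η) := by
    have e : (1 - η) * (1 - η) * (1 - η) * (1 + 6 * η) - (1 + η) =
        η * (2 - 15 * η + 17 * η ^ 2 - 6 * η ^ 3) := by ring
    have h7 : 0 ≤ 2 - 15 * η + 17 * η ^ 2 - 6 * η ^ 3 := by
      have h8 : 6 * η ^ 3 ≤ 17 * η ^ 2 := by
        have : 0 ≤ η ^ 2 := sq_nonneg η
        nlinarith
      linarith
    have h9 := mul_nonneg hη.le h7
    linarith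
  have h10 : 0 < (1 - η) * (1 - η) * (1 - η) := by
    have : 0 < 1 - η := by linarith
    positivity
  have h11 : (1 - η) * (1 - η) * (1 - η) * (r / Lk c d k) ≤
      (1 - η) * (1 - η) * (1 - η) * ((1 + 6 * η) * Kc c) := by
    calc (1 - η) * (1 - η) * (1 - η) * (r / Lk c d k) ≤ Kc c * (1 + η) := h2
      _ ≤ Kc c * ((1 - η) * (1 - η) * (1 - η) * (1 + 6 * η)) :=
          mul_le_mul_of_nonneg_left h6 hK.le
      _ = (1 - η) * (1 - η) * (1 - η) * ((1 + 6 * η) * Kc c) := by ring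
  have h12 := le_of_mul_le_mul_left h11 h10
  rw [div_le_iff₀ hLk] at h12
  linarith

/-- the top faces, upper bound. PROOF. `μ` small (`psi_le`; `exp (2 μ²)` near `1`), `k* = ⌊μ √d⌋`; F (`main`) at `i = d - 1 - k*`; for a maximal polytope for
`k ≤ k*` (`maxFaces_attained`) `Fk_mono`, `Fk_ratio` at `k` and `k*`, `Ek_ge`, `Ek_le`, `Lk_bounds`. -/
theorem top_upper {c : ℕ} (hc : 1 ≤ c) {ε : ℝ} (hε : 0 < ε) : ∃ (N : ℕ) (μ : ℝ), 0 < μ ∧
    ∀ d, N ≤ d → ∀ k : ℕ, (k : ℝ) ≤ μ * Real.sqrt d → k < d →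
      ratio c d (d - 1 - k) ≤ (1 + ε) * (Kc c * Lk c d k) := by
  have hK := Kc_pos hc
  obtain ⟨η, hη0, hη1, hηε⟩ : ∃ η : ℝ, 0 < η ∧ η ≤ 1 / 12 ∧ 6 * η ≤ ε := by
    refine ⟨min ε 1 / 12, ?_, ?_, ?_⟩
    · have := lt_min hε one_pos
      linarith
    · have := min_le_right ε 1
      linarith
    · have := min_le_left ε 1
      have := lt_min hε one_pos
      linarith
  obtain ⟨μ, hμ, hμ1, hμ2, -, -⟩ := topl_mu (r := rho c) hη0 hK (show (0 : ℝ) < 1 from one_pos)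
  have hμc : 0 < μ ^ c := by positivity
  obtain ⟨N₁, h1⟩ := main hc (ε := η * (Kc c * μ ^ c)) (by positivity)
  obtain ⟨N₂, h2⟩ := topl_large c hη0 (by linarith) hμ hμ1
  refine ⟨N₁ + N₂ + 1, μ, hμ, fun d hd k hk hkd => ?_⟩
  obtain ⟨hs4, hs1, hcs, hcd, hcd'⟩ := h2 d (by omega)
  obtain ⟨a, b, ha1, ha2, ha3, hb1, hb2, hab, hb3, hb4⟩ := topl_floor hμ hμ1 hs4
  have hd0 : 0 < d := by omega
  have hka := ha3 k hk
  have hLk := Lk_pos (c := c) hd0 k
  -- the value at `a`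
  have hra : ratio c d (d - 1 - a) ≤
      Kc c * (((a : ℝ) + 1) / Real.sqrt d) ^ c + η * (Kc c * μ ^ c) := by
    have h3 := h1 d (by omega) (d - 1 - a) (by omega)
    have h4 : ((d : ℝ) - ((d - 1 - a : ℕ) : ℝ)) = a + 1 := by
      rw [Nat.cast_sub (by omega), Nat.cast_sub (by omega)]
      push_cast
      ring
    rw [h4] at h3
    have h5 := psi_le hc (x := ((a : ℝ) + 1) / Real.sqrt d) (by positivity)
    have h6 := (abs_le.1 h3).2
    linarith
  by_cases hex : ∃ V : Finset (E d), CSData V ∧ Simp V ∧ V.card = 2 * (d + c)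
  · obtain ⟨V, hV, hS, hcard, hmax⟩ := C.maxFaces_attained hd0 (d - 1 - k) hex
    obtain ⟨q, hq⟩ : ∃ q : ℕ → ℝ, q = fun k => ((fc V (d - k)).card : ℝ) /
        (2 ^ (d - k) * ((d + c).choose (d - k) : ℝ)) := ⟨_, rfl⟩
    have hqk : q k = ratio c d (d - 1 - k) := by
      rw [hq]
      unfold ratio
      have e : d - 1 - k + 1 = d - k := by omega
      rw [hmax, e]
    have hqa : q a ≤ ratio c d (d - 1 - a) := by
      have h9 := C.fc_le_maxFaces (i := d - 1 - a) hd0 hV hS hcard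
      have e : d - 1 - a + 1 = d - a := by omega
      rw [e] at h9
      rw [hq]
      unfold ratio
      rw [e]
      refine div_le_div_of_nonneg_right ?_ (by positivity)
      exact_mod_cast h9
    have hq0 : ∀ j, 0 ≤ q j := by
      intro j
      rw [hq]
      positivity
    obtain ⟨A, hA⟩ : ∃ A : ℝ, A = 2 ^ d * ((d + c : ℕ) : ℝ) ^ ((c : ℝ) / 2) := ⟨_, rfl⟩
    have hA0 : 0 < A := by
      rw [hA]
      have : (0 : ℝ) < ((d + c : ℕ) : ℝ) := by exact_mod_cast (by omega : 0 < d + c)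
      positivity
    have hF : ∀ j, 2 * j < d → Fk V j = A * (Ek c d j * (q j / Lk c d j)) := by
      intro j hj
      rw [hA, hq]
      exact Fk_ratio hj V
    have hmono := Fk_mono hV hS hka (by omega)
    rw [hF a (by omega), hF k (by omega)] at hmono
    have hmono' := le_of_mul_le_mul_left hmono hA0
    have hval := topu_value hc hd0 hη0 hμ ha2 hcd (hqa.trans hra)
    have hend := topu_end hc hd0 hη0 hη1 hμ2 ha1 (by omega) hka hcd (hq0 k) (hq0 a) hval hmono'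
    rw [← hqk]
    refine hend.trans ?_
    exact mul_le_mul_of_nonneg_right (by linarith) (by positivity)
  · have h7 : ratio c d (d - 1 - k) = 0 := by
      unfold ratio
      rw [fin_empty hd0 _ _ hex]
      simp
    rw [h7]
    positivity

end Pool.Agent.H.MP_4bcbbd_co.K
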